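import Pool.Agent.H49.RP.Dim

/-!
Regular Cantor sets on the line of every dimension `β` between `0` and `1`.
-/

open MeasureTheory Measure Set Metric Filter
open scoped ENNReal NNReal Topology

namespace Pool.Agent.H49.RP

/-- Binary digits. -/
noncomputable def dg (i : ℕ) (u : ℝ) : ℕ := ⌊(2 : ℝ) ^ (i + 1) * u⌋₊ % 2

lemma floor_succ (i : ℕ) (u : ℝ) :
    ⌊(2 : ℝ) ^ (i + 1) * u⌋₊ = 2 * ⌊(2 : ℝ) ^ i * u⌋₊ + dg i u := by
  have h : ⌊(2 : ℝ) ^ i * u⌋₊ = ⌊(2 : ℝ) ^ (i + 1) * u⌋₊ / 2 := by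
    rw [← Nat.floor_div_natCast]
    congr 1
    push_cast
    ring
  unfold dg
  rw [h]
  omega

lemma dg_le (i : ℕ) (u : ℝ) : dg i u ≤ 1 := by
  unfold dg
  omega

lemma floor_eq_of_le {i j : ℕ} (hij : i ≤ j) {u v : ℝ}
    (h : ⌊(2 : ℝ) ^ j * u⌋₊ = ⌊(2 : ℝ) ^ j * v⌋₊) :
    ⌊(2 : ℝ) ^ i * u⌋₊ = ⌊(2 : ℝ) ^ i * v⌋₊ := by
  induction j, hij using Nat.le_induction with
  | base => exact h
  | succ j hj ih =>
    apply ih
    rw [floor_succ, floor_succ] at h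
    have := dg_le j u
    have := dg_le j v
    omega

lemma dg_eq_of_lt {i j : ℕ} (hij : i < j) {u v : ℝ}
    (h : ⌊(2 : ℝ) ^ j * u⌋₊ = ⌊(2 : ℝ) ^ j * v⌋₊) : dg i u = dg i v := by
  have h1 := floor_eq_of_le (show i + 1 ≤ j by omega) h
  unfold dg
  rw [h1]

/-- The Cantor map. -/
noncomputable def cm (ρ : ℝ) (u : ℝ) : ℝ := ∑' i : ℕ, (dg i u : ℝ) * ρ ^ (i + 1)

variable {ρ : ℝ}

lemma summable_geo (h0 : 0 < ρ) (h1 : ρ < 1) : Summable fun i : ℕ => ρ ^ (i + 1) := by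
  have := summable_geometric_of_lt_one h0.le h1
  exact (summable_nat_add_iff 1).2 this

lemma summable_cm (h0 : 0 < ρ) (h1 : ρ < 1) (u : ℝ) :
    Summable fun i : ℕ => (dg i u : ℝ) * ρ ^ (i + 1) := by
  refine Summable.of_nonneg_of_le (fun i => by positivity) (fun i => ?_) (summable_geo h0 h1)
  have : (dg i u : ℝ) ≤ 1 := by exact_mod_cast dg_le i u
  exact mul_le_of_le_one_left (by positivity) this

/-- Tail estimate: if the first `m` digits agree then the values differ at most by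
`ρ ^ (m + 1) / (1 - ρ)`. -/
lemma cm_sub_le (h0 : 0 < ρ) (h1 : ρ < 1) {u v : ℝ} {m : ℕ} (h : ∀ i < m, dg i u = dg i v) :
    |cm ρ u - cm ρ v| ≤ ρ ^ (m + 1) / (1 - ρ) := by
  have hs : cm ρ u - cm ρ v = ∑' i : ℕ, ((dg i u : ℝ) - dg i v) * ρ ^ (i + 1) := by
    unfold cm
    rw [← (summable_cm h0 h1 u).tsum_sub (summable_cm h0 h1 v)]
    congr 1
    funext i
    ring
  have hsum : Summable fun i : ℕ => ((dg i u : ℝ) - dg i v) * ρ ^ (i + 1) := by
    refine ((summable_cm h0 h1 u).sub (summable_cm h0 h1 v)).congr fun i => ?_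
    ring
  rw [hs, ← hsum.sum_add_tsum_nat_add m]
  have hz : ∑ i ∈ Finset.range m, ((dg i u : ℝ) - dg i v) * ρ ^ (i + 1) = 0 := by
    refine Finset.sum_eq_zero fun i hi => ?_
    rw [h i (Finset.mem_range.1 hi)]
    simp
  rw [hz, zero_add]
  have hb : ∀ i : ℕ, ‖((dg (i + m) u : ℝ) - dg (i + m) v) * ρ ^ (i + m + 1)‖ ≤ ρ ^ (m + 1) * ρ ^ i := by
    intro i
    rw [Real.norm_eq_abs, abs_mul, abs_of_nonneg (show (0 : ℝ) ≤ ρ ^ (i + m + 1) by positivity)]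
    have h2 : |((dg (i + m) u : ℝ) - dg (i + m) v)| ≤ 1 := by
      have a1 : (dg (i + m) u : ℝ) ≤ 1 := by exact_mod_cast dg_le _ u
      have a2 : (dg (i + m) v : ℝ) ≤ 1 := by exact_mod_cast dg_le _ v
      have a3 : (0 : ℝ) ≤ dg (i + m) u := by positivity
      have a4 : (0 : ℝ) ≤ dg (i + m) v := by positivity
      rw [abs_le]
      constructor <;> linarith
    calc |((dg (i + m) u : ℝ) - dg (i + m) v)| * ρ ^ (i + m + 1) ≤ 1 * ρ ^ (i + m + 1) := by gcongr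
      _ = ρ ^ (m + 1) * ρ ^ i := by ring
  have hgs : Summable fun i : ℕ => ρ ^ (m + 1) * ρ ^ i :=
    (summable_geometric_of_lt_one h0.le h1).mul_left _
  have h3 := tsum_of_norm_bounded (hgs.hasSum) hb
  rw [tsum_mul_left, tsum_geometric_of_lt_one h0.le h1] at h3
  rwa [div_eq_mul_inv]

/-- Separation: if the first different digit is the digit `m`. -/
lemma le_cm_sub (h0 : 0 < ρ) (h1 : ρ < 1) {u v : ℝ} {m : ℕ} (h : ∀ i < m, dg i u = dg i v)
    (hm : dg m u ≠ dg m v) :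
    ρ ^ (m + 1) * ((1 - 2 * ρ) / (1 - ρ)) ≤ |cm ρ u - cm ρ v| := by
  have hs : cm ρ u - cm ρ v = ∑' i : ℕ, ((dg i u : ℝ) - dg i v) * ρ ^ (i + 1) := by
    unfold cm
    rw [← (summable_cm h0 h1 u).tsum_sub (summable_cm h0 h1 v)]
    congr 1
    funext i
    ring
  have hsum : Summable fun i : ℕ => ((dg i u : ℝ) - dg i v) * ρ ^ (i + 1) := by
    refine ((summable_cm h0 h1 u).sub (summable_cm h0 h1 v)).congr fun i => ?_
    ring
  rw [hs, ← hsum.sum_add_tsum_nat_add (m + 1), Finset.sum_range_succ]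
  have hz : ∑ i ∈ Finset.range m, ((dg i u : ℝ) - dg i v) * ρ ^ (i + 1) = 0 := by
    refine Finset.sum_eq_zero fun i hi => ?_
    rw [h i (Finset.mem_range.1 hi)]
    simp
  rw [hz, zero_add]
  have hb : ∀ i : ℕ, ‖((dg (i + (m + 1)) u : ℝ) - dg (i + (m + 1)) v) * ρ ^ (i + (m + 1) + 1)‖ ≤
      ρ ^ (m + 2) * ρ ^ i := by
    intro i
    rw [Real.norm_eq_abs, abs_mul, abs_of_nonneg (show (0 : ℝ) ≤ ρ ^ (i + (m + 1) + 1) by positivity)]
    have h2 : |((dg (i + (m + 1)) u : ℝ) - dg (i + (m + 1)) v)| ≤ 1 := by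
      have a1 : (dg (i + (m + 1)) u : ℝ) ≤ 1 := by exact_mod_cast dg_le _ u
      have a2 : (dg (i + (m + 1)) v : ℝ) ≤ 1 := by exact_mod_cast dg_le _ v
      have a3 : (0 : ℝ) ≤ dg (i + (m + 1)) u := by positivity
      have a4 : (0 : ℝ) ≤ dg (i + (m + 1)) v := by positivity
      rw [abs_le]
      constructor <;> linarith
    calc |((dg (i + (m + 1)) u : ℝ) - dg (i + (m + 1)) v)| * ρ ^ (i + (m + 1) + 1)
        ≤ 1 * ρ ^ (i + (m + 1) + 1) := by gcongr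
      _ = ρ ^ (m + 2) * ρ ^ i := by ring
  have hgs : Summable fun i : ℕ => ρ ^ (m + 2) * ρ ^ i :=
    (summable_geometric_of_lt_one h0.le h1).mul_left _
  have h3 := tsum_of_norm_bounded (hgs.hasSum) hb
  rw [tsum_mul_left, tsum_geometric_of_lt_one h0.le h1, Real.norm_eq_abs] at h3
  have h4 : |((dg m u : ℝ) - dg m v) * ρ ^ (m + 1)| = ρ ^ (m + 1) := by
    rw [abs_mul, abs_of_nonneg (show (0 : ℝ) ≤ ρ ^ (m + 1) by positivity)]
    have a1 := dg_le m u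
    have a2 := dg_le m v
    have : |((dg m u : ℝ) - dg m v)| = 1 := by
      have : (dg m u = 0 ∧ dg m v = 1) ∨ (dg m u = 1 ∧ dg m v = 0) := by omega
      rcases this with ⟨e1, e2⟩ | ⟨e1, e2⟩ <;> simp [e1, e2]
    rw [this, one_mul]
  have h5 := abs_sub_abs_le_abs_sub (((dg m u : ℝ) - dg m v) * ρ ^ (m + 1))
    (-(∑' i : ℕ, ((dg (i + (m + 1)) u : ℝ) - dg (i + (m + 1)) v) * ρ ^ (i + (m + 1) + 1)))
  rw [sub_neg_eq_add, abs_neg, h4] at h5
  refine le_trans ?_ h5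
  have h6 : (0 : ℝ) < 1 - ρ := by linarith
  have h7 : ρ ^ (m + 1) * ((1 - 2 * ρ) / (1 - ρ)) = ρ ^ (m + 1) - ρ ^ (m + 2) * (1 - ρ)⁻¹ := by
    field_simp
    ring
  rw [h7]
  linarith

lemma abs_sub_lt_of_floor {u v : ℝ} (hu : 0 ≤ u) (hv : 0 ≤ v) (i : ℕ)
    (h1 : ⌊(2 : ℝ) ^ i * u⌋₊ = ⌊(2 : ℝ) ^ i * v⌋₊) : |u - v| < (1 / 2) ^ i := by
  have a1 := Nat.floor_le (show 0 ≤ (2 : ℝ) ^ i * u from mul_nonneg (by positivity) hu)
  have a2 := Nat.lt_floor_add_one ((2 : ℝ) ^ i * u)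
  have b1 := Nat.floor_le (show 0 ≤ (2 : ℝ) ^ i * v from mul_nonneg (by positivity) hv)
  have b2 := Nat.lt_floor_add_one ((2 : ℝ) ^ i * v)
  rw [h1] at a1 a2
  have h2 : |(2 : ℝ) ^ i * u - (2 : ℝ) ^ i * v| < 1 := by
    rw [abs_lt]
    constructor <;> linarith
  rw [← mul_sub, abs_mul, abs_of_pos (show (0 : ℝ) < 2 ^ i by positivity)] at h2
  rw [one_div, inv_pow, ← one_div, lt_div_iff₀ (by positivity), mul_comm]
  exact h2

lemma exists_first {u v : ℝ} (hu : u ∈ Ico (0 : ℝ) 1) (hv : v ∈ Ico (0 : ℝ) 1) (h : u ≠ v) :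
    ∃ m : ℕ, (∀ i < m, dg i u = dg i v) ∧ dg m u ≠ dg m v ∧ |u - v| < (1 / 2) ^ m := by
  classical
  have hex : ∃ i : ℕ, ⌊(2 : ℝ) ^ i * u⌋₊ ≠ ⌊(2 : ℝ) ^ i * v⌋₊ := by
    by_contra hcon
    push Not at hcon
    have hb : ∀ i : ℕ, |u - v| ≤ (1 / 2) ^ i := fun i =>
      (abs_sub_lt_of_floor hu.1 hv.1 i (hcon i)).le
    have hlim : Tendsto (fun i : ℕ => ((1 : ℝ) / 2) ^ i) atTop (𝓝 0) :=
      tendsto_pow_atTop_nhds_zero_of_lt_one (by norm_num) (by norm_num)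
    have := ge_of_tendsto' hlim hb
    have h0 : |u - v| = 0 := le_antisymm this (abs_nonneg _)
    exact h (sub_eq_zero.1 (abs_eq_zero.1 h0))
  have hspec := Nat.find_spec hex
  have hmin := fun j => Nat.find_min hex (m := j)
  rcases hk : Nat.find hex with _ | m
  · rw [hk] at hspec
    exfalso
    apply hspec
    have a : ⌊(2 : ℝ) ^ 0 * u⌋₊ = 0 := by
      rw [Nat.floor_eq_zero]
      simpa using hu.2
    have b : ⌊(2 : ℝ) ^ 0 * v⌋₊ = 0 := by
      rw [Nat.floor_eq_zero]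
      simpa using hv.2
    rw [a, b]
  · rw [hk] at hspec hmin
    have hm : ⌊(2 : ℝ) ^ m * u⌋₊ = ⌊(2 : ℝ) ^ m * v⌋₊ := by
      by_contra hc
      exact hmin m (Nat.lt_succ_self m) hc
    refine ⟨m, fun i hi => dg_eq_of_lt hi hm, ?_, abs_sub_lt_of_floor hu.1 hv.1 m hm⟩
    intro he
    apply hspec
    rw [floor_succ, floor_succ, hm, he]

/-- Inverse Hölder estimate. -/
lemma inv_holder {β : ℝ} (hβ0 : 0 < β) (hβ1 : β < 1) (hρ : ρ = (1 / 2) ^ (1 / β)) :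
    ∃ C : ℝ, 0 < C ∧ ∀ u ∈ Ico (0 : ℝ) 1, ∀ v ∈ Ico (0 : ℝ) 1,
      |u - v| ≤ C * |cm ρ u - cm ρ v| ^ β := by
  have h0 : 0 < ρ := by rw [hρ]; positivity
  have h12 : ρ < 1 / 2 := by
    rw [hρ]
    calc ((1 : ℝ) / 2) ^ (1 / β) < (1 / 2) ^ (1 : ℝ) := by
          apply Real.rpow_lt_rpow_of_exponent_gt (by norm_num) (by norm_num)
          rw [lt_div_iff₀ hβ0]
          linarith
      _ = 1 / 2 := by rw [Real.rpow_one]
  have h1 : ρ < 1 := by linarith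
  have hpow : ρ ^ β = 1 / 2 := by
    rw [hρ, ← Real.rpow_mul (by norm_num), one_div_mul_cancel hβ0.ne', Real.rpow_one]
  set K := (1 - 2 * ρ) / (1 - ρ) with hK
  have hK0 : 0 < K := div_pos (by linarith) (by linarith)
  refine ⟨2 / K ^ β, by positivity, ?_⟩
  intro u hu v hv
  rcases eq_or_ne u v with rfl | hne
  · simp only [sub_self, abs_zero]
    positivity
  · obtain ⟨m, hm1, hm2, hm3⟩ := exists_first hu hv hne
    have hsep := le_cm_sub h0 h1 hm1 hm2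
    have e1 : (ρ ^ (m + 1) * K) ^ β ≤ |cm ρ u - cm ρ v| ^ β :=
      Real.rpow_le_rpow (by positivity) hsep hβ0.le
    rw [Real.mul_rpow (by positivity) hK0.le] at e1
    have e2 : (ρ ^ (m + 1)) ^ β = (1 / 2) ^ (m + 1) := by
      rw [← Real.rpow_natCast, ← Real.rpow_mul h0.le, mul_comm, Real.rpow_mul h0.le, hpow,
        Real.rpow_natCast]
    rw [e2] at e1
    have e3 : 2 / K ^ β * ((1 / 2) ^ (m + 1) * K ^ β) ≤ 2 / K ^ β * |cm ρ u - cm ρ v| ^ β :=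
      mul_le_mul_of_nonneg_left e1 (by positivity)
    have e4 : 2 / K ^ β * ((1 / 2) ^ (m + 1) * K ^ β) = (1 / 2) ^ m := by
      have : K ^ β ≠ 0 := (Real.rpow_pos_of_pos hK0 β).ne'
      field_simp
      ring
    rw [e4] at e3
    linarith

lemma measurable_cm : Measurable (cm ρ) := by
  unfold cm
  refine Measurable.tsum fun i => ?_
  refine Measurable.mul_const ?_ _
  have h1 : Measurable fun u : ℝ => ⌊(2 : ℝ) ^ (i + 1) * u⌋₊ :=
    Nat.measurable_floor.comp (measurable_const.mul measurable_id)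
  have h2 : Measurable fun n : ℕ => ((n % 2 : ℕ) : ℝ) := measurable_from_top
  exact h2.comp h1

theorem exists_cantor (β : ℝ≥0) (hβ0 : 0 < β) (hβ1 : β < 1) :
    ∃ (B : Set ℝ) (ν : Measure ℝ) (c : ℝ≥0), MeasurableSet B ∧ 0 < c ∧ ν B ≠ 0 ∧
      (∀ I : Set ℝ, ν I ≤ c * ediam I ^ (β : ℝ)) ∧ CoverBound B c β := by
  have hβ0' : (0 : ℝ) < β := hβ0
  have hβ1' : (β : ℝ) < 1 := hβ1
  set ρ : ℝ := (1 / 2) ^ (1 / (β : ℝ)) with hρ
  have h0 : 0 < ρ := by rw [hρ]; positivity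
  have h12 : ρ < 1 / 2 := by
    rw [hρ]
    calc ((1 : ℝ) / 2) ^ (1 / (β : ℝ)) < (1 / 2) ^ (1 : ℝ) := by
          apply Real.rpow_lt_rpow_of_exponent_gt (by norm_num) (by norm_num)
          rw [lt_div_iff₀ hβ0']
          linarith
      _ = 1 / 2 := by rw [Real.rpow_one]
  have h1 : ρ < 1 := by linarith
  have hpow : ρ ^ (β : ℝ) = 1 / 2 := by
    rw [hρ, ← Real.rpow_mul (by norm_num), one_div_mul_cancel hβ0'.ne', Real.rpow_one]
  obtain ⟨C, hC0, hC⟩ := inv_holder hβ0' hβ1' hρ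
  set c : ℝ≥0 := max ⟨C, hC0.le⟩ 2 with hc
  have hcC : C ≤ c := by
    have : (⟨C, hC0.le⟩ : ℝ≥0) ≤ c := le_max_left _ _
    exact this
  have hc2 : (2 : ℝ≥0) ≤ c := le_max_right _ _
  have hinj : InjOn (cm ρ) (Ico 0 1) := by
    intro u hu v hv huv
    have := hC u hu v hv
    rw [huv, sub_self, abs_zero, Real.zero_rpow hβ0'.ne', mul_zero] at this
    exact sub_eq_zero.1 (abs_eq_zero.1 (le_antisymm this (abs_nonneg _)))
  have hBm : MeasurableSet (cm ρ '' Ico 0 1) :=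
    measurableSet_Ico.image_of_measurable_injOn measurable_cm hinj
  refine ⟨cm ρ '' Ico 0 1, (volume.restrict (Ico 0 1)).map (cm ρ), c, hBm, ?_, ?_, ?_, ?_⟩
  · exact lt_of_lt_of_le (by norm_num) hc2
  · rw [Measure.map_apply measurable_cm hBm, Measure.restrict_apply (measurable_cm hBm)]
    have : cm ρ ⁻¹' (cm ρ '' Ico 0 1) ∩ Ico (0 : ℝ) 1 = Ico 0 1 :=
      inter_eq_right.2 (subset_preimage_image _ _)
    rw [this]
    simp
  · intro I
    have hclm : MeasurableSet (closure I) := isClosed_closure.measurableSet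
    calc ((volume.restrict (Ico (0 : ℝ) 1)).map (cm ρ)) I
        ≤ ((volume.restrict (Ico (0 : ℝ) 1)).map (cm ρ)) (closure I) := measure_mono subset_closure
      _ = volume (cm ρ ⁻¹' (closure I) ∩ Ico 0 1) := by
          rw [Measure.map_apply measurable_cm hclm, Measure.restrict_apply (measurable_cm hclm)]
      _ ≤ ediam (cm ρ ⁻¹' (closure I) ∩ Ico 0 1) := Real.volume_le_diam _
      _ ≤ c * ediam I ^ (β : ℝ) := by
          refine ediam_le ?_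
          rintro u ⟨hu1, hu2⟩ v ⟨hv1, hv2⟩
          have e1 : edist (cm ρ u) (cm ρ v) ≤ ediam I := by
            rw [← ediam_closure]
            exact edist_le_ediam_of_mem hu1 hv1
          refine le_trans ?_ (mul_le_mul_right (ENNReal.rpow_le_rpow e1 hβ0'.le) _)
          rw [edist_dist, edist_dist, Real.dist_eq, Real.dist_eq,
            ENNReal.ofReal_rpow_of_nonneg (abs_nonneg _) hβ0'.le, ← ENNReal.ofReal_coe_nnreal,
            ← ENNReal.ofReal_mul (NNReal.coe_nonneg c)]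
          refine ENNReal.ofReal_le_ofReal ((hC u hu2 v hv2).trans ?_)
          exact mul_le_mul_of_nonneg_right hcC (by positivity)
  · intro r hr0 hr1
    obtain ⟨n, hn1, hn2⟩ := exists_nat_pow_near_of_lt_one (x := (r : ℝ)) (y := ρ) hr0 hr1 h0 h1
    refine ⟨2 ^ (n + 1), fun j => cm ρ '' {u ∈ Ico (0 : ℝ) 1 | ⌊(2 : ℝ) ^ (n + 1) * u⌋₊ = j}, ?_, ?_, ?_⟩
    · rintro _ ⟨u, hu, rfl⟩
      have hlt : ⌊(2 : ℝ) ^ (n + 1) * u⌋₊ < 2 ^ (n + 1) := by
        rw [Nat.floor_lt (mul_nonneg (by positivity) hu.1)]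
        push_cast
        have : (2 : ℝ) ^ (n + 1) * u < 2 ^ (n + 1) * 1 :=
          mul_lt_mul_of_pos_left hu.2 (by positivity)
        linarith
      exact mem_iUnion.2 ⟨⟨_, hlt⟩, u, ⟨hu, rfl⟩, rfl⟩
    · intro j
      refine ediam_le ?_
      rintro _ ⟨u, ⟨hu1, hu2⟩, rfl⟩ _ ⟨v, ⟨hv1, hv2⟩, rfl⟩
      rw [edist_dist, Real.dist_eq, ← ENNReal.ofReal_coe_nnreal]
      apply ENNReal.ofReal_le_ofReal
      have e1 := cm_sub_le h0 h1 (u := u) (v := v) (m := n + 1) (fun i hi =>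
        dg_eq_of_lt hi (hu2.trans hv2.symm))
      refine e1.trans (le_trans ?_ hn1.le)
      rw [div_le_iff₀ (by linarith), pow_succ ρ (n + 1)]
      refine mul_le_mul_of_nonneg_left ?_ (by positivity)
      linarith
    · have hr0' : (0 : ℝ) < r := hr0
      have e1 : ((2 : ℝ) ^ n) ≤ (r : ℝ) ^ (-(β : ℝ)) := by
        have e2 : (ρ ^ n) ^ (-(β : ℝ)) ≤ (r : ℝ) ^ (-(β : ℝ)) :=
          Real.rpow_le_rpow_of_nonpos hr0' hn2 (by linarith)
        have e3 : (ρ ^ n) ^ (-(β : ℝ)) = 2 ^ n := by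
          rw [← Real.rpow_natCast, ← Real.rpow_mul h0.le, mul_comm, Real.rpow_mul h0.le,
            Real.rpow_neg h0.le, hpow, Real.rpow_natCast]
          norm_num
        rwa [e3] at e2
      rw [← NNReal.coe_le_coe]
      push_cast
      rw [pow_succ]
      have hc2' : (2 : ℝ) ≤ c := hc2
      calc (2 : ℝ) ^ n * 2 = 2 * 2 ^ n := by ring
        _ ≤ c * (r : ℝ) ^ (-(β : ℝ)) := by gcongr

end Pool.Agent.H49.RP
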