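import Pool.Agent.H49.RP.Gen
import Pool.Agent.H49.RP.Cantor

/-!
The reduction to the critical case, for matrices and the sup metric.
-/

open Set Matrix MeasureTheory
open scoped ENNReal NNReal

namespace Pool.Agent.H49.RP

/-- The critical case, in terms of matrices. -/
def CritM : Prop :=
  ∀ n m : ℕ, 0 < n → 0 < m → ∀ M : ℝ → Matrix (Fin m) (Fin n) ℝ, AnFam M → GoodM M m m →
    ∀ A : Set (Fin n → ℝ), MeasurableSet A → (m : ℝ≥0∞) ≤ dimH A →
      ∀ᵐ t ∂(volume.restrict (Icc (0 : ℝ) 1)), dimH ((fun x => (M t) *ᵥ x) '' A) = m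

/-- The completed matrix loses at most `K1` dimensions more. -/
lemma dimH_completed_le {n m K1 J : ℕ} (U : Matrix (Fin (K1 + J)) (Fin m) ℝ)
    (W : Matrix (Fin (K1 + J)) (Fin n) ℝ) (L : Matrix (Fin m) (Fin n) ℝ)
    (hW0 : ∀ (j : Fin J) i, W (Fin.natAdd K1 j) i = 0) (A : Set (Fin n → ℝ)) :
    dimH ((fun x => (U * L + W) *ᵥ x) '' A) ≤ dimH ((fun x => L *ᵥ x) '' A) + K1 := by
  let Φ : ((Fin m → ℝ) × (Fin K1 → ℝ)) →ₗ[ℝ] (Fin (K1 + J) → ℝ) :=
    { toFun := fun p => U *ᵥ p.1 + Fin.append p.2 (fun _ : Fin J => (0 : ℝ))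
      map_add' := by
        intro p q
        ext i
        refine Fin.addCases (fun i => ?_) (fun i => ?_) i
        · simp [Matrix.mulVec_add]
          ring
        · simp [Matrix.mulVec_add]
      map_smul' := by
        intro c p
        ext i
        refine Fin.addCases (fun i => ?_) (fun i => ?_) i
        · simp [Matrix.mulVec_smul]
          ring
        · simp [Matrix.mulVec_smul] }
  have hsub : (fun x => (U * L + W) *ᵥ x) '' A ⊆
      Φ '' (((fun x => L *ᵥ x) '' A) ×ˢ (univ : Set (Fin K1 → ℝ))) := by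
    rintro _ ⟨x, hx, rfl⟩
    refine ⟨(L *ᵥ x, fun i => (W *ᵥ x) (Fin.castAdd J i)), ⟨⟨x, hx, rfl⟩, mem_univ _⟩, ?_⟩
    ext i
    refine Fin.addCases (fun i => ?_) (fun i => ?_) i
    · simp [Φ, Matrix.add_mulVec, Matrix.mulVec_mulVec]
    · have : (W *ᵥ x) (Fin.natAdd K1 i) = 0 := by
        simp [Matrix.mulVec, dotProduct, hW0]
      simp [Φ, Matrix.add_mulVec, Matrix.mulVec_mulVec, this]
  refine (dimH_mono hsub).trans ?_
  have h3 := (LinearMap.toContinuousLinearMap Φ).lipschitz.dimH_image_le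
    (((fun x => L *ᵥ x) '' A) ×ˢ (univ : Set (Fin K1 → ℝ)))
  exact le_trans h3 (dimH_prod_univ_pi_le K1 _)

lemma anFam_completed {n m K1 J : ℕ} {U : ℝ → Matrix (Fin (K1 + J)) (Fin m) ℝ}
    {W : ℝ → Matrix (Fin (K1 + J)) (Fin n) ℝ} {L : ℝ → Matrix (Fin m) (Fin n) ℝ}
    (hU : AnFam U) (hW : AnFam W) (hL : AnFam L) : AnFam (fun t => U t * L t + W t) := by
  intro i l
  have : (fun t => (U t * L t + W t) i l) = fun t => (∑ x, U t i x * L t x l) + W t i l := by
    funext t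
    simp [Matrix.mul_apply]
  rw [this]
  intro t ht
  refine AnalyticAt.add ?_ (hW i l t ht)
  exact Finset.analyticAt_fun_sum _ fun x _ => (hU i x t ht).mul (hL x l t ht)

/-- Integer part of the reduction. -/
theorem le_dimH_image (hC : CritM) {n m K1 J : ℕ} (hn : 0 < n)
    (L : ℝ → Matrix (Fin m) (Fin n) ℝ) (hL : AnFam L) (hgood : GoodM L (K1 + J) J)
    (A : Set (Fin n → ℝ)) (hA : MeasurableSet A) (hdim : ((K1 + J : ℕ) : ℝ≥0∞) ≤ dimH A) :
    ∀ᵐ t ∂(volume.restrict (Icc (0 : ℝ) 1)), (J : ℝ≥0∞) ≤ dimH ((fun x => (L t) *ᵥ x) '' A) := by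
  rcases Nat.eq_zero_or_pos J with rfl | hJ
  · simp
  obtain ⟨U, W, hU, hW, hW0, hM⟩ := exists_generic L hL hgood
  have h1 := hC n (K1 + J) hn (by omega) _ (anFam_completed hU hW hL) hM A hA hdim
  filter_upwards [h1] with t ht
  have h2 := dimH_completed_le (U t) (W t) (L t) (hW0 t) A
  rw [ht] at h2
  push_cast at h2
  rw [add_comm] at h2
  exact ENNReal.le_of_add_le_add_right (by simp) h2

/-- The critical case in a fixed dimension, in terms of matrices. -/
def CritR (n : ℕ) : Prop :=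
  ∀ m : ℕ, 0 < m → ∀ M : ℝ → Matrix (Fin m) (Fin n) ℝ, AnFam M → GoodM M m m →
    ∀ A : Set (Fin n → ℝ), MeasurableSet A → (m : ℝ≥0∞) < dimH A + 1 →
      ∀ᵐ t ∂(volume.restrict (Icc (0 : ℝ) 1)), dimH ((fun x => (M t) *ᵥ x) '' A) = min (dimH A) m

/-- The reduction in a fixed dimension. -/
theorem le_dimH_image_real {n : ℕ} (hC : CritR n) {m K1 J : ℕ} (hJ : 0 < J)
    (L : ℝ → Matrix (Fin m) (Fin n) ℝ) (hL : AnFam L) (hgood : GoodM L (K1 + J) J)
    (A : Set (Fin n → ℝ)) (hA : MeasurableSet A) (hdim : ((K1 + J : ℕ) : ℝ≥0∞) < dimH A + 1) :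
    ∀ᵐ t ∂(volume.restrict (Icc (0 : ℝ) 1)),
      min (dimH A) ((K1 + J : ℕ) : ℝ≥0∞) ≤ dimH ((fun x => (L t) *ᵥ x) '' A) + K1 := by
  obtain ⟨U, W, hU, hW, hW0, hM⟩ := exists_generic L hL hgood
  have h1 := hC (K1 + J) (by omega) _ (anFam_completed hU hW hL) hM A hA hdim
  filter_upwards [h1] with t ht
  have h2 := dimH_completed_le (U t) (W t) (L t) (hW0 t) A
  rw [ht] at h2
  exact h2

/-- Extension of a matrix by an identity coordinate. -/
def extM {n m : ℕ} (M : Matrix (Fin m) (Fin n) ℝ) : Matrix (Fin (m + 1)) (Fin (n + 1)) ℝ :=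
  Matrix.of fun i l => (Fin.cons (Fin.cons 1 (fun _ => 0) : Fin (n + 1) → ℝ)
    (fun i' => (Fin.cons 0 (fun l' => M i' l') : Fin (n + 1) → ℝ)) : Fin (m + 1) → Fin (n + 1) → ℝ) i l

lemma extM_mulVec {n m : ℕ} (M : Matrix (Fin m) (Fin n) ℝ) (b : ℝ) (a : Fin n → ℝ) :
    extM M *ᵥ (Fin.cons b a : Fin (n + 1) → ℝ) = (Fin.cons b (M *ᵥ a) : Fin (m + 1) → ℝ) := by
  ext i
  refine Fin.cases ?_ (fun i => ?_) i
  · simp [extM, Matrix.mulVec, dotProduct, Fin.sum_univ_succ]
  · simp [extM, Matrix.mulVec, dotProduct, Fin.sum_univ_succ]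

lemma extM_an {n m : ℕ} (M : ℝ → Matrix (Fin m) (Fin n) ℝ) (hM : AnFam M) :
    AnFam (fun t => extM (M t)) := by
  intro i l
  refine Fin.cases ?_ (fun i => ?_) i
  · refine Fin.cases ?_ (fun l => ?_) l
    · simp only [extM, Matrix.of_apply, Fin.cons_zero]
      exact analyticOnNhd_const
    · simp only [extM, Matrix.of_apply, Fin.cons_zero, Fin.cons_succ]
      exact analyticOnNhd_const
  · refine Fin.cases ?_ (fun l => ?_) l
    · simp only [extM, Matrix.of_apply, Fin.cons_zero, Fin.cons_succ]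
      exact analyticOnNhd_const
    · simp only [extM, Matrix.of_apply, Fin.cons_succ]
      exact hM i l

/-- The inclusion of the hyperplane of vectors with first coordinate zero. -/
def inc (n : ℕ) : (Fin n → ℝ) →ₗ[ℝ] (Fin (n + 1) → ℝ) where
  toFun a := Fin.cons 0 a
  map_add' := by
    intro a b
    ext i
    refine Fin.cases ?_ (fun i => ?_) i <;> simp
  map_smul' := by
    intro c a
    ext i
    refine Fin.cases ?_ (fun i => ?_) i <;> simp

lemma inc_injective (n : ℕ) : Function.Injective (inc n) := by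
  intro a b h
  exact Fin.cons_right_injective (α := fun _ => ℝ) 0 h

/-- The first coordinate. -/
def fst (n : ℕ) : (Fin (n + 1) → ℝ) →ₗ[ℝ] ℝ := LinearMap.proj 0

lemma finrank_eq (n : ℕ) (S : Submodule ℝ (Fin (n + 1) → ℝ)) :
    Module.finrank ℝ S = Module.finrank ℝ (S.comap (inc n)) + Module.finrank ℝ (S.map (fst n)) := by
  have h1 := LinearMap.finrank_range_add_finrank_ker ((fst n).domRestrict S)
  rw [LinearMap.range_domRestrict] at h1
  have h2 : Module.finrank ℝ (LinearMap.ker ((fst n).domRestrict S)) =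
      Module.finrank ℝ (S.comap (inc n)) := by
    rw [(Submodule.equivMapOfInjective S.subtype (Submodule.subtype_injective S) _).finrank_eq,
      (Submodule.equivMapOfInjective (inc n) (inc_injective n) (S.comap (inc n))).finrank_eq]
    have h3 : Submodule.map S.subtype (LinearMap.ker ((fst n).domRestrict S)) =
        Submodule.map (inc n) (S.comap (inc n)) := by
      ext x
      simp only [Submodule.mem_map, LinearMap.mem_ker, Submodule.mem_comap]
      constructor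
      · rintro ⟨y, hy, rfl⟩
        have hy0 : (y : Fin (n + 1) → ℝ) 0 = 0 := hy
        have hy1 : inc n (Fin.tail (y : Fin (n + 1) → ℝ)) = y := by
          show (Fin.cons 0 (Fin.tail (y : Fin (n + 1) → ℝ)) : Fin (n + 1) → ℝ) = y
          rw [← hy0]
          exact Fin.cons_self_tail _
        refine ⟨Fin.tail (y : Fin (n + 1) → ℝ), ?_, hy1⟩
        rw [hy1]
        exact y.2
      · rintro ⟨a, ha, rfl⟩
        exact ⟨⟨inc n a, ha⟩, rfl, rfl⟩
    rw [h3]
  omega

lemma extM_good {n m k j : ℕ} (M : ℝ → Matrix (Fin m) (Fin n) ℝ) (h1 : GoodM M k j)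
    (h2 : GoodM M (k + 1) (j + 1)) : GoodM (fun t => extM (M t)) (k + 1) (j + 1) := by
  intro V hV
  have e1 := finrank_eq n V
  have e2 : ∀ t, Module.finrank ℝ ((V.comap (inc n)).map (M t).mulVecLin) +
      Module.finrank ℝ (V.map (fst n)) ≤ Module.finrank ℝ (V.map (extM (M t)).mulVecLin) := by
    intro t
    rw [finrank_eq m (V.map (extM (M t)).mulVecLin)]
    refine add_le_add ?_ (le_of_eq ?_)
    · apply Submodule.finrank_mono
      rintro _ ⟨a, ha, rfl⟩
      refine ⟨inc n a, ha, ?_⟩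
      exact extM_mulVec (M t) 0 a
    · have h4 : (fst m) ∘ₗ (extM (M t)).mulVecLin = fst n := by
        apply LinearMap.ext
        intro x
        have h3 : x = Fin.cons (x 0) (Fin.tail x) := (Fin.cons_self_tail x).symm
        show (extM (M t) *ᵥ x) 0 = x 0
        rw [h3, extM_mulVec]
        simp
      rw [← Submodule.map_comp, h4]
  have h3 : Module.finrank ℝ (V.map (fst n)) ≤ 1 := by
    refine (Submodule.finrank_le _).trans ?_
    simp
  rw [hV] at e1
  rcases Nat.le_one_iff_eq_zero_or_eq_one.1 h3 with h4 | h4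
  · have h5 := h2 (V.comap (inc n)) (by omega)
    refine h5.subset ?_
    rintro t ⟨ht, ht2⟩
    refine ⟨ht, ?_⟩
    have := e2 t
    have ht3 : Module.finrank ℝ (V.map (extM (M t)).mulVecLin) < j + 1 := ht2
    omega
  · have h5 := h1 (V.comap (inc n)) (by omega)
    refine h5.subset ?_
    rintro t ⟨ht, ht2⟩
    refine ⟨ht, ?_⟩
    have := e2 t
    have ht3 : Module.finrank ℝ (V.map (extM (M t)).mulVecLin) < j + 1 := ht2
    omega

/-- The fractional part of the reduction. -/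
theorem le_dimH_image_frac (hC : CritM) {n m k j : ℕ} (hjk : j ≤ k)
    (P : ℝ → Matrix (Fin m) (Fin n) ℝ) (hP : AnFam P) (h1 : GoodM P k j)
    (h2 : GoodM P (k + 1) (j + 1)) (A : Set (Fin n → ℝ)) (hA : MeasurableSet A) (θ : ℝ≥0)
    (hθ0 : 0 < θ) (hθ1 : θ < 1) (hdim : dimH A = (k : ℝ≥0∞) + θ) :
    ∀ᵐ t ∂(volume.restrict (Icc (0 : ℝ) 1)),
      (j : ℝ≥0∞) + θ ≤ dimH ((fun x => (P t) *ᵥ x) '' A) := by
  have hβ0 : 0 < 1 - θ := tsub_pos_of_lt hθ1
  have hβ1 : 1 - θ < 1 := tsub_lt_self (by norm_num) hθ0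
  obtain ⟨B, ν, c, hB, hc, hνB, hν, hcov⟩ := exists_cantor (1 - θ) hβ0 hβ1
  have hsum : (θ : ℝ≥0∞) + ((1 - θ : ℝ≥0) : ℝ≥0∞) = 1 := by
    rw [← ENNReal.coe_add, add_tsub_cancel_of_le hθ1.le]
    simp
  -- the product set
  let A' : Set (Fin (n + 1) → ℝ) := {x | x 0 ∈ B ∧ Fin.tail x ∈ A}
  have hA'm : MeasurableSet A' := by
    refine MeasurableSet.inter ?_ ?_
    · exact (measurable_pi_apply 0) hB
    · refine (measurable_pi_lambda _ fun i => ?_) hA
      exact measurable_pi_apply _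
  have hdimA0 : dimH A ≠ 0 := by
    rw [hdim]
    have : (θ : ℝ≥0∞) ≠ 0 := by exact_mod_cast hθ0.ne'
    intro h
    exact this (add_eq_zero.1 h).2
  have hA'd : ((k - j + (j + 1) : ℕ) : ℝ≥0∞) ≤ dimH A' := by
    have h3 := le_dimH_prod (A := A) ν hc hdimA0 hνB hν
    have h4 : A ×ˢ B ⊆ (fun x : Fin (n + 1) → ℝ => (Fin.tail x, x 0)) '' A' := by
      rintro ⟨a, b⟩ ⟨ha, hb⟩
      refine ⟨Fin.cons b a, ⟨by simpa using hb, by simpa using ha⟩, by simp⟩
    have h5 : LipschitzWith 1 (fun x : Fin (n + 1) → ℝ => (Fin.tail x, x 0)) := by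
      intro x y
      rw [ENNReal.coe_one, one_mul, Prod.edist_eq]
      refine max_le ?_ (edist_le_pi_edist x y 0)
      rw [edist_pi_le_iff]
      intro i
      exact edist_le_pi_edist x y i.succ
    have h6 := h3.trans ((dimH_mono h4).trans (h5.dimH_image_le A'))
    refine le_trans (le_of_eq ?_) h6
    rw [hdim, add_assoc, hsum]
    have : k - j + (j + 1) = k + 1 := by omega
    rw [this]
    push_cast
    rfl
  have hgood : GoodM (fun t => extM (P t)) (k - j + (j + 1)) (j + 1) := by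
    have : k - j + (j + 1) = k + 1 := by omega
    rw [this]
    exact extM_good P h1 h2
  have h7 := le_dimH_image hC (Nat.succ_pos n) (fun t => extM (P t)) (extM_an P hP) hgood A' hA'm hA'd
  filter_upwards [h7] with t ht
  have h8 : (fun x => extM (P t) *ᵥ x) '' A' ⊆
      (fun p : (Fin m → ℝ) × ℝ => (Fin.cons p.2 p.1 : Fin (m + 1) → ℝ)) ''
        (((fun x => (P t) *ᵥ x) '' A) ×ˢ B) := by
    rintro _ ⟨x, ⟨hx0, hx1⟩, rfl⟩
    refine ⟨(P t *ᵥ Fin.tail x, x 0), ⟨⟨_, hx1, rfl⟩, hx0⟩, ?_⟩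
    simp only
    rw [← extM_mulVec, Fin.cons_self_tail]
  have h9 : LipschitzWith 1
      (fun p : (Fin m → ℝ) × ℝ => (Fin.cons p.2 p.1 : Fin (m + 1) → ℝ)) := by
    rintro ⟨y, b⟩ ⟨y', b'⟩
    rw [ENNReal.coe_one, one_mul, Prod.edist_eq, edist_pi_le_iff]
    intro i
    refine Fin.cases ?_ (fun i => ?_) i
    · exact le_max_right _ _
    · exact le_trans (edist_le_pi_edist y y' i) (le_max_left _ _)
  have h10 := (dimH_mono h8).trans ((h9.dimH_image_le _).trans (dimH_prod_le hcov))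
  have h11 := ht.trans h10
  have h12 : (j : ℝ≥0∞) + θ + ((1 - θ : ℝ≥0) : ℝ≥0∞) ≤
      dimH ((fun x => (P t) *ᵥ x) '' A) + ((1 - θ : ℝ≥0) : ℝ≥0∞) := by
    rw [add_assoc, hsum]
    refine le_trans (le_of_eq ?_) h11
    push_cast
    rfl
  exact ENNReal.le_of_add_le_add_right ENNReal.coe_ne_top h12

end Pool.Agent.H49.RP
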