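import Mathlib

/-!
Hausdorff dimension of products: upper bound by covering numbers of the second factor,
lower bound by a regular measure on the second factor (any first factor).
-/

open MeasureTheory Measure Set Metric Filter
open scoped ENNReal NNReal Topology

namespace Pool.Agent.H49.RP

variable {X : Type*} [EMetricSpace X] {Y : Type*} [EMetricSpace Y]

/-- `S` is covered, for every scale `r ≤ 1`, by at most `c r ^ (-β)` sets of diameter at most `r`. -/
def CoverBound (S : Set Y) (c β : ℝ≥0) : Prop :=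
  ∀ r : ℝ≥0, 0 < r → r ≤ 1 → ∃ (N : ℕ) (U : Fin N → Set Y), S ⊆ ⋃ i, U i ∧
    (∀ i, ediam (U i) ≤ (r : ℝ≥0∞)) ∧ (N : ℝ≥0) ≤ c * r ^ (-(β : ℝ))

lemma exists_cover_of_null [MeasurableSpace X] [BorelSpace X] {E : Set X} {s : ℝ} (hs : 0 < s)
    (h : μH[s] E = 0) (ε : ℝ≥0) (hε : 0 < ε) :
    ∃ (t : ℕ → Set X) (ρ : ℕ → ℝ≥0), E ⊆ ⋃ n, t n ∧ (∀ n, ediam (t n) ≤ (ρ n : ℝ≥0∞)) ∧
      (∀ n, 0 < ρ n) ∧ (∀ n, ρ n ≤ ε) ∧ ∑' n, ((ρ n : ℝ≥0∞)) ^ s ≤ ε := by
  -- geometric weights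
  have hε2 : 0 < (ε / 2 : ℝ≥0) := by positivity
  rw [hausdorffMeasure_apply] at h
  have h1 := le_of_eq h
  rw [iSup₂_le_iff] at h1
  have h2 := h1 ((ε : ℝ≥0∞)) (by exact_mod_cast hε)
  have h3 : (⨅ (t : ℕ → Set X) (_ : E ⊆ ⋃ n, t n) (_ : ∀ n, ediam (t n) ≤ (ε : ℝ≥0∞)),
          ∑' n, ⨆ _ : (t n).Nonempty, ediam (t n) ^ s) < ((ε / 2 : ℝ≥0) : ℝ≥0∞) :=
    lt_of_le_of_lt h2 (by exact_mod_cast hε2)
  simp only [iInf_lt_iff] at h3
  obtain ⟨t, ht, hd, hsum⟩ := h3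
  -- choose η
  have hη : ∃ η : ℕ → ℝ≥0, (∀ n, 0 < η n) ∧ (∀ n, η n ≤ ε) ∧
      ∑' n, ((η n : ℝ≥0∞)) ^ s ≤ ((ε / 2 : ℝ≥0) : ℝ≥0∞) := by
    obtain ⟨w, hw0, hw⟩ := ENNReal.exists_pos_sum_of_countable
      (ε := ((ε / 2 : ℝ≥0) : ℝ≥0∞)) (by exact_mod_cast hε2.ne') ℕ
    refine ⟨fun n => min ε ((w n) ^ (1 / s)), ?_, ?_, ?_⟩
    · intro n
      refine lt_min hε ?_
      exact NNReal.rpow_pos (hw0 n)
    · intro n
      exact min_le_left _ _
    · refine le_trans (ENNReal.tsum_le_tsum fun n => ?_) hw.le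
      have : ((min ε ((w n) ^ (1 / s)) : ℝ≥0) : ℝ≥0∞) ≤ (((w n) ^ (1 / s) : ℝ≥0) : ℝ≥0∞) := by
        exact_mod_cast min_le_right _ _
      refine le_trans (ENNReal.rpow_le_rpow this hs.le) ?_
      rw [← ENNReal.coe_rpow_of_nonneg _ hs.le, ← NNReal.rpow_mul, one_div,
        inv_mul_cancel₀ hs.ne', NNReal.rpow_one]
  obtain ⟨η, hη0, hηε, hηs⟩ := hη
  have htop : ∀ n, ediam (t n) ≠ ∞ := fun n => ne_top_of_le_ne_top ENNReal.coe_ne_top (hd n)
  refine ⟨t, fun n => max (ediam (t n)).toNNReal (η n), ht, ?_, ?_, ?_, ?_⟩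
  · intro n
    rw [ENNReal.coe_max, ENNReal.coe_toNNReal (htop n)]
    exact le_max_left _ _
  · intro n
    exact lt_of_lt_of_le (hη0 n) (le_max_right _ _)
  · intro n
    refine max_le ?_ (hηε n)
    have := hd n
    rw [← ENNReal.coe_toNNReal (htop n)] at this
    exact_mod_cast this
  · have hb : ∀ n, (((max (ediam (t n)).toNNReal (η n) : ℝ≥0)) : ℝ≥0∞) ^ s ≤
        (⨆ _ : (t n).Nonempty, ediam (t n) ^ s) + ((η n : ℝ≥0∞)) ^ s := by
      intro n
      rw [ENNReal.coe_max, ENNReal.coe_toNNReal (htop n)]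
      rcases (t n).eq_empty_or_nonempty with he | hne
      · rw [he]
        simp [hs]
      · rcases le_total (ediam (t n)) (η n : ℝ≥0∞) with hle | hle
        · rw [max_eq_right hle]
          exact le_add_self
        · rw [max_eq_left hle]
          simp only [hne, iSup_pos]
          exact le_self_add
    calc ∑' n, (((max (ediam (t n)).toNNReal (η n) : ℝ≥0)) : ℝ≥0∞) ^ s
        ≤ ∑' n, ((⨆ _ : (t n).Nonempty, ediam (t n) ^ s) + ((η n : ℝ≥0∞)) ^ s) :=
          ENNReal.tsum_le_tsum hb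
      _ = (∑' n, (⨆ _ : (t n).Nonempty, ediam (t n) ^ s)) + ∑' n, ((η n : ℝ≥0∞)) ^ s :=
          ENNReal.tsum_add
      _ ≤ ((ε / 2 : ℝ≥0) : ℝ≥0∞) + ((ε / 2 : ℝ≥0) : ℝ≥0∞) := add_le_add hsum.le hηs
      _ = ε := by
          rw [← ENNReal.coe_add, add_halves]

lemma ediam_prod_le (s : Set X) (t : Set Y) : ediam (s ×ˢ t) ≤ max (ediam s) (ediam t) := by
  refine ediam_le ?_
  rintro ⟨a, b⟩ ⟨ha, hb⟩ ⟨a', b'⟩ ⟨ha', hb'⟩
  exact max_le_max (edist_le_ediam_of_mem ha ha') (edist_le_ediam_of_mem hb hb')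

/-- Upper bound for the dimension of a product by covering numbers of the second factor. -/
theorem dimH_prod_le {E : Set X} {S : Set Y} {c β : ℝ≥0} (hS : CoverBound S c β) :
    dimH (E ×ˢ S) ≤ dimH E + β := by
  borelize X
  borelize (X × Y)
  refine dimH_le fun d hd => ?_
  by_contra hlt
  rw [not_le] at hlt
  -- s = d - β
  have hβd : (β : ℝ≥0∞) ≤ d := le_trans le_add_self hlt.le
  have hβd' : β ≤ d := by exact_mod_cast hβd
  obtain ⟨s, hs⟩ : ∃ s : ℝ≥0, d = s + β := ⟨d - β, by rw [tsub_add_cancel_of_le hβd']⟩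
  have hsE : dimH E < s := by
    rw [hs, ENNReal.coe_add] at hlt
    exact lt_of_add_lt_add_right hlt
  have hs0 : 0 < s := by
    have : (0 : ℝ≥0∞) < s := lt_of_le_of_lt (zero_le) hsE
    exact_mod_cast this
  have hnull : μH[(s : ℝ)] E = 0 := hausdorffMeasure_of_dimH_lt hsE
  have key : ∀ k : ℕ, ∃ (t : ℕ → Set X) (ρ : ℕ → ℝ≥0) (N : ℕ → ℕ) (U : ∀ n, Fin (N n) → Set Y),
      E ⊆ ⋃ n, t n ∧ (∀ n, ediam (t n) ≤ (ρ n : ℝ≥0∞)) ∧ (∀ n, 0 < ρ n) ∧
      (∀ n, ρ n ≤ 1 / ((k : ℝ≥0) + 1)) ∧ ∑' n, ((ρ n : ℝ≥0∞)) ^ (s : ℝ) ≤ ((1 / ((k : ℝ≥0) + 1) : ℝ≥0) : ℝ≥0∞) ∧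
      (∀ n, S ⊆ ⋃ i, U n i) ∧ (∀ n i, ediam (U n i) ≤ (ρ n : ℝ≥0∞)) ∧
      (∀ n, (N n : ℝ≥0) ≤ c * (ρ n) ^ (-(β : ℝ))) := by
    intro k
    obtain ⟨t, ρ, h1, h2, h3, h4, h5⟩ := exists_cover_of_null (E := E) (s := (s : ℝ))
      (by exact_mod_cast hs0) hnull (1 / ((k : ℝ≥0) + 1)) (by positivity)
    have h6 : ∀ n, ρ n ≤ 1 := by
      intro n
      refine le_trans (h4 n) ?_
      rw [div_le_one (by positivity)]
      exact le_add_self
    choose N U hU1 hU2 hU3 using fun n => hS (ρ n) (h3 n) (h6 n)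
    exact ⟨t, ρ, N, U, h1, h2, h3, h4, h5, hU1, hU2, hU3⟩
  choose t ρ N U h1 h2 h3 h4 h5 h6 h7 h8 using key
  have hzero : μH[(d : ℝ)] (E ×ˢ S) ≤ 0 := by
    have hr : Tendsto (fun k : ℕ => ((1 / ((k : ℝ≥0) + 1) : ℝ≥0) : ℝ≥0∞)) atTop (𝓝 0) := by
      have : Tendsto (fun k : ℕ => (1 / ((k : ℝ≥0) + 1) : ℝ≥0)) atTop (𝓝 0) := by
        have h0 : Tendsto (fun k : ℕ => (1 / ((k : ℝ) + 1) : ℝ)) atTop (𝓝 0) :=
          tendsto_one_div_add_atTop_nhds_zero_nat
        rw [← NNReal.tendsto_coe]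
        simpa using h0
      have h9 := ENNReal.tendsto_coe.2 this
      rwa [ENNReal.coe_zero] at h9
    have := hausdorffMeasure_le_liminf_tsum (β := ℕ) (ι := fun k => Σ n, Fin (N k n)) (d : ℝ)
      (E ×ˢ S) (l := atTop) (fun k : ℕ => ((1 / ((k : ℝ≥0) + 1) : ℝ≥0) : ℝ≥0∞)) hr
      (fun k p => (t k p.1) ×ˢ (U k p.1 p.2)) ?_ ?_
    · refine le_trans this ?_
      have hbound : ∀ k : ℕ, ∑' p : (Σ n, Fin (N k n)), ediam ((t k p.1) ×ˢ (U k p.1 p.2)) ^ (d : ℝ) ≤
          (c : ℝ≥0∞) * ((1 / ((k : ℝ≥0) + 1) : ℝ≥0) : ℝ≥0∞) := by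
        intro k
        rw [ENNReal.tsum_sigma']
        refine le_trans (ENNReal.tsum_le_tsum (g := fun n => (c : ℝ≥0∞) * ((ρ k n : ℝ≥0∞)) ^ (s : ℝ)) fun n => ?_) ?_
        · rw [tsum_fintype]
          have hterm : ∀ i : Fin (N k n), ediam ((t k n) ×ˢ (U k n i)) ^ (d : ℝ) ≤
              ((ρ k n : ℝ≥0) : ℝ≥0∞) ^ (d : ℝ) := by
            intro i
            refine ENNReal.rpow_le_rpow ?_ (NNReal.coe_nonneg d)
            exact (ediam_prod_le _ _).trans (max_le (h2 k n) (h7 k n i))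
          refine le_trans (Finset.sum_le_sum fun i _ => hterm i) ?_
          rw [Finset.sum_const, Finset.card_univ, Fintype.card_fin, nsmul_eq_mul]
          have e1 : ((N k n : ℝ≥0) : ℝ≥0∞) ≤ ((c * (ρ k n) ^ (-(β : ℝ)) : ℝ≥0) : ℝ≥0∞) := by
            exact_mod_cast h8 k n
          have e2 : ((N k n : ℕ) : ℝ≥0∞) = ((N k n : ℝ≥0) : ℝ≥0∞) := by simp
          rw [e2]
          refine le_trans (mul_le_mul_left e1 _) ?_
          rw [← ENNReal.coe_rpow_of_nonneg _ (NNReal.coe_nonneg d), ← ENNReal.coe_rpow_of_nonneg _ (NNReal.coe_nonneg s),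
            ← ENNReal.coe_mul, ← ENNReal.coe_mul, ENNReal.coe_le_coe]
          apply le_of_eq
          rw [mul_assoc, ← NNReal.rpow_add (h3 k n).ne', hs]
          congr 2
          push_cast
          ring
        · rw [ENNReal.tsum_mul_left]
          exact mul_le_mul_right (h5 k) _
      have hlim : Tendsto (fun k : ℕ => (c : ℝ≥0∞) * ((1 / ((k : ℝ≥0) + 1) : ℝ≥0) : ℝ≥0∞)) atTop (𝓝 0) := by
        have := ENNReal.Tendsto.const_mul (a := (c : ℝ≥0∞)) hr (Or.inr ENNReal.coe_ne_top)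
        simpa using this
      calc liminf (fun k : ℕ => ∑' p : (Σ n, Fin (N k n)), ediam ((t k p.1) ×ˢ (U k p.1 p.2)) ^ (d : ℝ)) atTop
          ≤ liminf (fun k : ℕ => (c : ℝ≥0∞) * ((1 / ((k : ℝ≥0) + 1) : ℝ≥0) : ℝ≥0∞)) atTop :=
            liminf_le_liminf (Eventually.of_forall hbound)
        _ = 0 := hlim.liminf_eq
    · refine Eventually.of_forall fun k p => ?_
      refine (ediam_prod_le _ _).trans (max_le ((h2 k p.1).trans ?_) ((h7 k p.1 p.2).trans ?_)) <;>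
      exact_mod_cast h4 k p.1
    · refine Eventually.of_forall fun k => ?_
      rintro ⟨x, y⟩ ⟨hx, hy⟩
      obtain ⟨n, hn⟩ := mem_iUnion.1 (h1 k hx)
      obtain ⟨i, hi⟩ := mem_iUnion.1 (h6 k n hy)
      exact mem_iUnion.2 ⟨⟨n, i⟩, hn, hi⟩
  have : μH[(d : ℝ)] (E ×ˢ S) = 0 := le_antisymm hzero (zero_le)
  simp [this] at hd

/-- Lower bound for the dimension of a product by a regular measure on the second factor. -/
theorem le_dimH_prod {A : Set X} {B : Set ℝ} (ν : Measure ℝ) {c β : ℝ≥0} (hc : 0 < c)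
    (hA0 : dimH A ≠ 0) (hB : ν B ≠ 0) (hν : ∀ I : Set ℝ, ν I ≤ c * ediam I ^ (β : ℝ)) :
    dimH A + β ≤ dimH (A ×ˢ B) := by
  borelize X
  borelize (X × ℝ)
  -- it is enough to prove it for s < dimH A
  have main : ∀ s : ℝ≥0, (s : ℝ≥0∞) < dimH A → ((s + β : ℝ≥0) : ℝ≥0∞) ≤ dimH (A ×ˢ B) := by
    intro s hs
    refine le_dimH_of_hausdorffMeasure_ne_zero ?_
    have hA : μH[(s : ℝ)] A = ∞ := hausdorffMeasure_of_lt_dimH hs
    rw [hausdorffMeasure_apply] at hA
    have : ∃ r : ℝ≥0∞, 0 < r ∧ 0 < (⨅ (t : ℕ → Set X) (_ : A ⊆ ⋃ n, t n) (_ : ∀ n, ediam (t n) ≤ r),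
          ∑' n, ⨆ _ : (t n).Nonempty, ediam (t n) ^ (s : ℝ)) := by
      by_contra hcon
      push Not at hcon
      have : (⨆ (r : ℝ≥0∞) (_ : 0 < r),
        ⨅ (t : ℕ → Set X) (_ : A ⊆ ⋃ n, t n) (_ : ∀ n, ediam (t n) ≤ r),
          ∑' n, ⨆ _ : (t n).Nonempty, ediam (t n) ^ (s : ℝ)) ≤ 0 :=
        iSup₂_le fun r hr => hcon r hr
      rw [hA] at this
      simp at this
    obtain ⟨r, hr, hh⟩ := this
    set h := (⨅ (t : ℕ → Set X) (_ : A ⊆ ⋃ n, t n) (_ : ∀ n, ediam (t n) ≤ r),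
          ∑' n, ⨆ _ : (t n).Nonempty, ediam (t n) ^ (s : ℝ)) with hdef
    have key : h * ν B ≤ c * μH[((s + β : ℝ≥0) : ℝ)] (A ×ˢ B) := by
      rw [hausdorffMeasure_apply]
      have : (⨅ (t : ℕ → Set (X × ℝ)) (_ : A ×ˢ B ⊆ ⋃ n, t n) (_ : ∀ n, ediam (t n) ≤ r),
          ∑' n, ⨆ _ : (t n).Nonempty, ediam (t n) ^ ((s + β : ℝ≥0) : ℝ)) ≤
          ⨆ (r : ℝ≥0∞) (_ : 0 < r),
        ⨅ (t : ℕ → Set (X × ℝ)) (_ : A ×ˢ B ⊆ ⋃ n, t n) (_ : ∀ n, ediam (t n) ≤ r),
          ∑' n, ⨆ _ : (t n).Nonempty, ediam (t n) ^ ((s + β : ℝ≥0) : ℝ) := le_iSup₂_of_le r hr le_rfl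
      refine le_trans ?_ (mul_le_mul_right this _)
      rw [ENNReal.mul_iInf_of_ne (by exact_mod_cast hc.ne') ENNReal.coe_ne_top]
      refine le_iInf fun T => ?_
      rw [ENNReal.mul_iInf_of_ne (by exact_mod_cast hc.ne') ENNReal.coe_ne_top]
      refine le_iInf fun hT => ?_
      rw [ENNReal.mul_iInf_of_ne (by exact_mod_cast hc.ne') ENNReal.coe_ne_top]
      refine le_iInf fun hTr => ?_
      -- the function F
      let J : ℕ → Set ℝ := fun n => closure (Prod.snd '' (T n))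
      have hJm : ∀ n, MeasurableSet (J n) := fun n => isClosed_closure.measurableSet
      let F : ℝ → ℝ≥0∞ := fun b => ∑' n, (J n).indicator (fun _ => ediam (T n) ^ (s : ℝ)) b
      have hFm : Measurable F := by
        refine Measurable.tsum fun n => ?_
        exact Measurable.indicator measurable_const (hJm n)
      have hFB : ∀ b ∈ B, h ≤ F b := by
        intro b hb
        have hle : h ≤ ∑' n, ⨆ _ : ((fun a => (a, b)) ⁻¹' (T n)).Nonempty,
            ediam ((fun a => (a, b)) ⁻¹' (T n)) ^ (s : ℝ) := by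
          refine iInf_le_of_le (fun n => (fun a => (a, b)) ⁻¹' (T n)) ?_
          refine iInf_le_of_le ?_ ?_
          · intro a ha
            obtain ⟨n, hn⟩ := mem_iUnion.1 (hT (show (a, b) ∈ A ×ˢ B from ⟨ha, hb⟩))
            exact mem_iUnion.2 ⟨n, hn⟩
          · refine iInf_le_of_le ?_ le_rfl
            intro n
            refine le_trans ?_ (hTr n)
            refine ediam_le fun x hx y hy => ?_
            have := edist_le_ediam_of_mem (show (x, b) ∈ T n from hx) (show (y, b) ∈ T n from hy)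
            exact le_trans (le_max_left _ _) this
        refine le_trans hle (ENNReal.tsum_le_tsum fun n => ?_)
        refine iSup_le fun hne => ?_
        obtain ⟨a, ha⟩ := hne
        have hbJ : b ∈ J n := subset_closure ⟨(a, b), ha, rfl⟩
        rw [indicator_of_mem hbJ]
        refine ENNReal.rpow_le_rpow ?_ (NNReal.coe_nonneg s)
        refine ediam_le fun x hx y hy => ?_
        have := edist_le_ediam_of_mem (show (x, b) ∈ T n from hx) (show (y, b) ∈ T n from hy)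
        exact le_trans (le_max_left _ _) this
      calc h * ν B ≤ h * ν {b | h ≤ F b} := mul_le_mul_right (measure_mono hFB) _
        _ ≤ ∫⁻ b, F b ∂ν := mul_meas_ge_le_lintegral hFm h
        _ = ∑' n, ∫⁻ b, (J n).indicator (fun _ => ediam (T n) ^ (s : ℝ)) b ∂ν :=
            lintegral_tsum fun n => (Measurable.indicator measurable_const (hJm n)).aemeasurable
        _ = ∑' n, ediam (T n) ^ (s : ℝ) * ν (J n) := by
            congr 1
            funext n
            rw [lintegral_indicator_const (hJm n)]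
        _ ≤ ∑' n, c * ⨆ _ : (T n).Nonempty, ediam (T n) ^ ((s + β : ℝ≥0) : ℝ) := by
            refine ENNReal.tsum_le_tsum fun n => ?_
            rcases (T n).eq_empty_or_nonempty with he | hne
            · have : J n = ∅ := by simp [J, he]
              simp [this]
            · simp only [hne, iSup_pos]
              have hJd : ediam (J n) ≤ ediam (T n) := by
                simp only [J]
                rw [ediam_closure]
                refine ediam_le ?_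
                rintro _ ⟨x, hx, rfl⟩ _ ⟨y, hy, rfl⟩
                exact le_trans (le_max_right _ _) (edist_le_ediam_of_mem hx hy)
              calc ediam (T n) ^ (s : ℝ) * ν (J n)
                  ≤ ediam (T n) ^ (s : ℝ) * (c * ediam (T n) ^ (β : ℝ)) := by
                    refine mul_le_mul_right ((hν _).trans ?_) _
                    exact mul_le_mul_right (ENNReal.rpow_le_rpow hJd (NNReal.coe_nonneg β)) _
                _ = c * (ediam (T n) ^ (s : ℝ) * ediam (T n) ^ (β : ℝ)) := by ring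
                _ = c * ediam (T n) ^ ((s + β : ℝ≥0) : ℝ) := by
                    rw [← ENNReal.rpow_add_of_nonneg _ _ (NNReal.coe_nonneg s) (NNReal.coe_nonneg β)]
                    push_cast
                    rfl
        _ = c * ∑' n, ⨆ _ : (T n).Nonempty, ediam (T n) ^ ((s + β : ℝ≥0) : ℝ) :=
            ENNReal.tsum_mul_left
    intro h0
    rw [h0, mul_zero] at key
    have : h * ν B = 0 := le_antisymm key (zero_le)
    rcases mul_eq_zero.1 this with h1 | h1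
    · exact hh.ne' h1
    · exact hB h1
  refine ENNReal.le_of_forall_nnreal_lt fun r hr => ?_
  rcases le_total r β with hrβ | hrβ
  · have h1 := main 0 (by simpa using pos_iff_ne_zero.2 hA0)
    rw [zero_add] at h1
    exact le_trans (by exact_mod_cast hrβ) h1
  · have h2 : ((r - β : ℝ≥0) : ℝ≥0∞) < dimH A := by
      have h3 : (((r - β : ℝ≥0) : ℝ≥0∞) + β) < dimH A + β := by
        rw [← ENNReal.coe_add, tsub_add_cancel_of_le hrβ]
        exact hr
      exact lt_of_add_lt_add_right h3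
    have h1 := main _ h2
    rwa [tsub_add_cancel_of_le hrβ] at h1

lemma coverBound_mono {S T : Set Y} {c β : ℝ≥0} (h : S ⊆ T) (hT : CoverBound T c β) :
    CoverBound S c β := by
  intro r h0 h1
  obtain ⟨N, U, hU, hd, hN⟩ := hT r h0 h1
  exact ⟨N, U, h.trans hU, hd, hN⟩

lemma coverBound_Icc (a : ℝ) : CoverBound (Icc a (a + 1)) 2 1 := by
  intro r h0 h1
  have hr : (0 : ℝ) < r := h0
  refine ⟨⌈(1 / r : ℝ)⌉₊, fun i => Icc (a + i * r) (a + (i + 1) * r), ?_, ?_, ?_⟩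
  · intro x hx
    rw [mem_iUnion]
    rcases eq_or_lt_of_le hx.1 with hxa | hxa
    · refine ⟨⟨0, Nat.ceil_pos.2 (by positivity)⟩, ?_, ?_⟩
      · simp [hxa]
      · simp only [← hxa]
        push_cast
        nlinarith
    · have hpos : 0 < (x - a) / r := div_pos (by linarith) hr
      have hm : 0 < ⌈(x - a) / r⌉₊ := Nat.ceil_pos.2 hpos
      have hlt : ⌈(x - a) / r⌉₊ - 1 < ⌈(1 / r : ℝ)⌉₊ := by
        have : ⌈(x - a) / r⌉₊ ≤ ⌈(1 / r : ℝ)⌉₊ := by
          apply Nat.ceil_mono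
          gcongr
          linarith [hx.2]
        omega
      have e1 : (((⌈(x - a) / r⌉₊ - 1 : ℕ) : ℝ)) = (⌈(x - a) / r⌉₊ : ℝ) - 1 := by
        rw [Nat.cast_sub (by omega)]
        simp
      have e2 := Nat.ceil_lt_add_one hpos.le
      have e3 := Nat.le_ceil ((x - a) / r)
      refine ⟨⟨⌈(x - a) / r⌉₊ - 1, hlt⟩, ?_, ?_⟩
      · simp only
        rw [e1]
        have : ((⌈(x - a) / r⌉₊ : ℝ) - 1) * r ≤ ((x - a) / r) * r :=
          mul_le_mul_of_nonneg_right (by linarith) hr.le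
        rw [div_mul_cancel₀ _ hr.ne'] at this
        linarith
      · simp only
        rw [e1]
        have : ((x - a) / r) * r ≤ ((⌈(x - a) / r⌉₊ : ℝ) - 1 + 1) * r :=
          mul_le_mul_of_nonneg_right (by linarith) hr.le
        rw [div_mul_cancel₀ _ hr.ne'] at this
        linarith
  · intro i
    rw [Real.ediam_Icc]
    rw [show a + ((i : ℕ) + 1 : ℝ) * r - (a + (i : ℕ) * r) = (r : ℝ) by ring]
    exact (ENNReal.ofReal_coe_nnreal).le
  · rw [← NNReal.coe_le_coe]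
    push_cast
    rw [Real.rpow_neg hr.le, Real.rpow_one]
    have := Nat.ceil_lt_add_one (show (0 : ℝ) ≤ 1 / r by positivity)
    have h3 : (1 : ℝ) ≤ 1 / r := by
      rw [le_div_iff₀ hr, one_mul]
      exact_mod_cast h1
    rw [one_div] at this h3
    simp only [one_div]
    linarith

theorem dimH_prod_univ_le (E : Set X) : dimH (E ×ˢ (univ : Set ℝ)) ≤ dimH E + 1 := by
  have : E ×ˢ (univ : Set ℝ) ⊆ ⋃ n : ℤ, E ×ˢ (Icc (n : ℝ) (n + 1)) := by
    rintro ⟨x, y⟩ ⟨hx, -⟩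
    refine mem_iUnion.2 ⟨⌊y⌋, hx, Int.floor_le y, (Int.lt_floor_add_one y).le⟩
  refine le_trans (dimH_mono this) ?_
  rw [dimH_iUnion]
  refine iSup_le fun n => ?_
  simpa using dimH_prod_le (E := E) (coverBound_Icc (n : ℝ))

theorem dimH_prod_univ_pi_le : ∀ (d : ℕ) {X : Type*} [EMetricSpace X] (E : Set X),
    dimH (E ×ˢ (univ : Set (Fin d → ℝ))) ≤ dimH E + d := by
  intro d
  induction d with
  | zero =>
    intro X _ E
    simp only [Nat.cast_zero, add_zero]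
    have : E ×ˢ (univ : Set (Fin 0 → ℝ)) = (fun x : X => (x, (default : Fin 0 → ℝ))) '' E := by
      ext ⟨x, y⟩
      simp only [mem_prod, mem_univ, and_true, mem_image, Prod.mk.injEq]
      constructor
      · intro hx
        exact ⟨x, hx, rfl, Subsingleton.elim _ _⟩
      · rintro ⟨z, hz, rfl, -⟩
        exact hz
    rw [this]
    refine LipschitzWith.dimH_image_le (K := 1) ?_ E
    intro x y
    simp [Prod.edist_eq]
  | succ d ih =>
    intro X _ E
    have h1 := ih (E ×ˢ (univ : Set ℝ))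
    have h2 := dimH_prod_univ_le E
    have h3 : E ×ˢ (univ : Set (Fin (d + 1) → ℝ)) ⊆
        (fun p : (X × ℝ) × (Fin d → ℝ) => (p.1.1, (Fin.cons p.1.2 p.2 : Fin (d + 1) → ℝ))) ''
          ((E ×ˢ (univ : Set ℝ)) ×ˢ (univ : Set (Fin d → ℝ))) := by
      rintro ⟨x, y⟩ ⟨hx, -⟩
      refine ⟨((x, y 0), Fin.tail y), ⟨⟨hx, mem_univ _⟩, mem_univ _⟩, ?_⟩
      simp
    refine le_trans (dimH_mono h3) ?_
    have h4 : LipschitzWith 1
        (fun p : (X × ℝ) × (Fin d → ℝ) => (p.1.1, (Fin.cons p.1.2 p.2 : Fin (d + 1) → ℝ))) := by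
      rintro ⟨⟨x, a⟩, v⟩ ⟨⟨y, b⟩, w⟩
      simp only [Prod.edist_eq, ENNReal.coe_one, one_mul]
      refine max_le ?_ ?_
      · exact le_trans (le_max_left _ _) (le_max_left _ _)
      · rw [edist_pi_le_iff]
        intro i
        refine Fin.cases ?_ (fun i => ?_) i
        · simp only [Fin.cons_zero]
          exact le_trans (le_max_right _ _) (le_max_left _ _)
        · simp only [Fin.cons_succ]
          exact le_trans (edist_le_pi_edist v w i) (le_max_right _ _)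
    refine le_trans (h4.dimH_image_le _) ?_
    refine le_trans h1 ?_
    push_cast
    calc dimH (E ×ˢ (univ : Set ℝ)) + (d : ℝ≥0∞) ≤ dimH E + 1 + d := by gcongr
      _ = dimH E + (d + 1) := by ring

end Pool.Agent.H49.RP
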