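import Mathlib

/-!
The domain of analytic functions on the unit interval, and functions transcendental over a finitely
generated subalgebra.
-/

open Set Filter
open scoped Topology Polynomial

namespace Pool.Agent.H49.RP

/-- The algebra of restrictions to the unit interval of functions analytic near it. -/
def an : Subalgebra ℝ (Icc (0 : ℝ) 1 → ℝ) where
  carrier := {f | ∃ F : ℝ → ℝ, AnalyticOnNhd ℝ F (Icc 0 1) ∧ ∀ t : Icc (0 : ℝ) 1, f t = F t}
  mul_mem' := by
    rintro f g ⟨F, hF, hf⟩ ⟨G, hG, hg⟩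
    exact ⟨fun t => F t * G t, hF.mul hG, fun t => by simp [hf t, hg t]⟩
  add_mem' := by
    rintro f g ⟨F, hF, hf⟩ ⟨G, hG, hg⟩
    exact ⟨fun t => F t + G t, hF.add hG, fun t => by simp [hf t, hg t]⟩
  algebraMap_mem' := by
    intro r
    exact ⟨fun _ => r, analyticOnNhd_const, fun t => by simp⟩

/-- The element of `an` given by an analytic function. -/
def mk (F : ℝ → ℝ) (hF : AnalyticOnNhd ℝ F (Icc 0 1)) : an :=
  ⟨fun t => F t, F, hF, fun _ => rfl⟩

instance : Nontrivial an := by
  refine ⟨0, 1, fun h => ?_⟩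
  have := congrArg (fun f : an => (f : Icc (0 : ℝ) 1 → ℝ) ⟨0, by simp⟩) h
  simp at this

instance : NoZeroDivisors an := by
  constructor
  rintro ⟨f, F, hF, hf⟩ ⟨g, G, hG, hg⟩ h
  have h1 : ∀ t ∈ Icc (0 : ℝ) 1, F t * G t = 0 := by
    intro t ht
    have := congrArg (fun f : an => (f : Icc (0 : ℝ) 1 → ℝ) ⟨t, ht⟩) h
    simpa [hf, hg] using this
  rcases AnalyticOnNhd.eq_zero_or_eq_zero_of_mul_eq_zero hF hG h1 isPreconnected_Icc with h2 | h2
  · left
    ext t
    simp [hf t, h2 t t.2]
  · right
    ext t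
    simp [hg t, h2 t t.2]

instance : IsDomain an := NoZeroDivisors.to_isDomain _

lemma mk_eq_zero_of_infinite {F : ℝ → ℝ} (hF : AnalyticOnNhd ℝ F (Icc 0 1))
    (h : {t ∈ Icc (0 : ℝ) 1 | F t = 0}.Infinite) : mk F hF = 0 := by
  obtain ⟨z, hz, hacc⟩ := h.exists_accPt_of_subset_isCompact isCompact_Icc (sep_subset _ _)
  have h1 : ∃ᶠ t in 𝓝[≠] z, F t = 0 := by
    rw [accPt_iff_frequently_nhdsNE] at hacc
    exact hacc.mono fun t ht => ht.2
  have h2 := hF.eqOn_zero_of_preconnected_of_frequently_eq_zero isPreconnected_Icc hz h1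
  ext t
  exact h2 t.2

/-- The exponential functions. -/
noncomputable def ex (a : ℝ) : an :=
  mk (fun t => Real.exp (a * t)) (by
    intro t _
    fun_prop)

lemma ex_apply (a : ℝ) (t : Icc (0 : ℝ) 1) : (ex a : Icc (0 : ℝ) 1 → ℝ) t = Real.exp (a * t) := rfl

lemma ex_zero : ex 0 = 1 := by
  ext t
  simp [ex_apply]

lemma ex_add (a b : ℝ) : ex (a + b) = ex a * ex b := by
  ext t
  simp [ex_apply, add_mul, Real.exp_add]

lemma ex_nsmul (n : ℕ) (a : ℝ) : ex (n * a) = ex a ^ n := by
  induction n with
  | zero => simp [ex_zero]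
  | succ n ih =>
    rw [pow_succ, ← ih, ← ex_add]
    congr 1
    push_cast
    ring

lemma ex_sum {ι : Type*} (S : Finset ι) (f : ι → ℝ) : ex (∑ i ∈ S, f i) = ∏ i ∈ S, ex (f i) := by
  classical
  induction S using Finset.induction_on with
  | empty => simp [ex_zero]
  | insert i S hi ih => rw [Finset.sum_insert hi, Finset.prod_insert hi, ex_add, ih]

/-- Distinct exponentials are linearly independent. -/
lemma linearIndependent_ex : LinearIndependent ℝ ex := by
  rw [linearIndependent_iff']
  intro S c hc a ha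
  have h1 : ∀ t ∈ Icc (0 : ℝ) 1, ∑ b ∈ S, c b * Real.exp (b * t) = 0 := by
    intro t ht
    have := congrArg (fun f : an => (f : Icc (0 : ℝ) 1 → ℝ) ⟨t, ht⟩) hc
    simpa [Finset.sum_apply, ex_apply] using this
  have h2 : AnalyticOnNhd ℝ (fun t => ∑ b ∈ S, c b * Real.exp (b * t)) univ := by
    intro t _
    fun_prop
  have h3 : ∀ t, ∑ b ∈ S, c b * Real.exp (b * t) = 0 := by
    have h4 : (fun t => ∑ b ∈ S, c b * Real.exp (b * t)) =ᶠ[𝓝 (1 / 2 : ℝ)] 0 := by
      filter_upwards [Icc_mem_nhds (show (0 : ℝ) < 1 / 2 by norm_num)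
        (show (1 / 2 : ℝ) < 1 by norm_num)] with t ht using h1 t ht
    have h5 := h2.eqOn_zero_of_preconnected_of_eventuallyEq_zero isPreconnected_univ
      (mem_univ _) h4
    exact fun t => h5 (mem_univ t)
  let χ : ℝ → (Multiplicative ℝ →* ℝ) := fun a =>
    { toFun := fun t => Real.exp (a * t.toAdd)
      map_one' := by simp
      map_mul' := fun x y => by simp [mul_add, Real.exp_add] }
  have hχ : Function.Injective χ := by
    intro x y hxy
    have := congrArg (fun f : Multiplicative ℝ →* ℝ => f (Multiplicative.ofAdd 1)) hxy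
    simpa [χ] using this
  have h4 := (linearIndependent_monoidHom (Multiplicative ℝ) ℝ).comp χ hχ
  rw [linearIndependent_iff'] at h4
  refine h4 S c ?_ a ha
  funext t
  have := h3 t.toAdd
  simpa [Finset.sum_apply, χ] using this

/-- Exponentials with rationally independent frequencies are algebraically independent. -/
lemma algebraicIndependent_ex {ι : Type} (l : ι → ℝ) (hl : LinearIndependent ℚ l) :
    AlgebraicIndependent ℝ fun i => ex (l i) := by
  rw [algebraicIndependent_iff]
  intro p hp
  let g : (ι →₀ ℕ) → ℝ := fun d => ∑ i ∈ d.support, (d i : ℝ) * l i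
  have hg : Function.Injective g := by
    have h1 : Function.Injective (Finsupp.linearCombination ℚ l) := hl
    have h2 : ∀ d, g d = Finsupp.linearCombination ℚ l (d.mapRange (Nat.cast : ℕ → ℚ) Nat.cast_zero) := by
      intro d
      rw [Finsupp.linearCombination_apply, Finsupp.sum_mapRange_index (by simp)]
      simp [g, Finsupp.sum, Rat.smul_def]
    intro d e hde
    rw [h2, h2] at hde
    have h3 := h1 hde
    exact Finsupp.mapRange_injective _ Nat.cast_zero Nat.cast_injective h3
  have h4 := linearIndependent_ex.comp g hg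
  rw [linearIndependent_iff'] at h4
  have h5 : ∑ d ∈ p.support, p.coeff d • (ex ∘ g) d = 0 := by
    rw [← hp, MvPolynomial.aeval_def, MvPolynomial.eval₂_eq]
    refine Finset.sum_congr rfl fun d _ => ?_
    rw [Algebra.smul_def]
    congr 1
    simp only [Function.comp, g]
    rw [ex_sum]
    exact Finset.prod_congr rfl fun i _ => ex_nsmul _ _
  ext d
  by_cases hd : d ∈ p.support
  · rw [h4 p.support _ h5 d hd]
    simp
  · simpa using hd

lemma card_lt_aleph0 {R A : Type} [Field R] [CommRing A] [IsDomain A] [Algebra R A] (s : Set A)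
    (hs : s.Finite) {ι : Type} (x : ι → A) (hx : AlgebraicIndependent R x)
    (h : ∀ i, IsAlgebraic (Algebra.adjoin R s) (x i)) : Cardinal.mk ι < Cardinal.aleph0 := by
  let y : ι → Subalgebra.algebraicClosure (Algebra.adjoin R s) A := fun i => ⟨x i, h i⟩
  have hy : AlgebraicIndependent R y := by
    have h2 : x = ((Subalgebra.algebraicClosure (Algebra.adjoin R s) A).val.restrictScalars R) ∘ y := rfl
    rw [h2] at hx
    exact AlgebraicIndependent.of_comp _ hx
  have h3 := hy.cardinalMk_le_trdeg
  have h4 := trdeg_add_eq R (Algebra.adjoin R s)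
    (A := Subalgebra.algebraicClosure (Algebra.adjoin R s) A)
  have h5 : Algebra.trdeg (Algebra.adjoin R s)
    (Subalgebra.algebraicClosure (Algebra.adjoin R s) A) = 0 := trdeg_eq_zero
  have h6 : Algebra.FiniteType R (Algebra.adjoin R s) := by
    obtain ⟨S, rfl⟩ := hs.exists_finset_coe
    exact (Subalgebra.fg_iff_finiteType _).1 (Subalgebra.fg_adjoin_finset S)
  have h7 : Algebra.trdeg R (Algebra.adjoin R s) < Cardinal.aleph0 :=
    trdeg_lt_aleph0_of_finiteType
  rw [← h4, h5, add_zero] at h3
  exact lt_of_le_of_lt h3 h7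

theorem exists_transcendental (s : Set an) (hs : s.Finite) :
    ∃ a : ℝ, Transcendental (Algebra.adjoin ℝ s) (ex a) := by
  by_contra hcon
  push Not at hcon
  simp only [Transcendental, not_not] at hcon
  let b := Module.Basis.ofVectorSpace ℚ ℝ
  have hinf : Cardinal.aleph0 ≤ Cardinal.mk (Module.Basis.ofVectorSpaceIndex ℚ ℝ) := by
    rw [b.mk_eq_rank'', Real.rank_rat_real]
    exact Cardinal.aleph0_le_continuum
  have h1 := algebraicIndependent_ex (fun i => b i) b.linearIndependent
  exact absurd hinf (not_le.2 (card_lt_aleph0 s hs _ h1 fun i => hcon _))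

end Pool.Agent.H49.RP
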