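import Pool.Agent.H49.RP.Sel
import Pool.Agent.H49.RP.Trans

/-!
Generic completion of an analytic family of matrices by a transcendental perturbation.
-/

open Set Matrix

namespace Pool.Agent.H49.RP

/-- The entries are analytic near the unit interval. -/
def AnFam {ι κ : Type*} (M : ℝ → Matrix ι κ ℝ) : Prop :=
  ∀ i j, AnalyticOnNhd ℝ (fun t => M t i j) (Icc 0 1)

/-- Every subspace of dimension `K` has image of dimension at least `J` for all but finitely many
parameters. -/
def GoodM {n m : ℕ} (M : ℝ → Matrix (Fin m) (Fin n) ℝ) (K J : ℕ) : Prop :=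
  ∀ V : Submodule ℝ (Fin n → ℝ), Module.finrank ℝ V = K →
    {t ∈ Icc (0 : ℝ) 1 | Module.finrank ℝ (V.map (M t).mulVecLin) < J}.Finite

/-- Evaluation. -/
def ev (t : Icc (0 : ℝ) 1) : an →+* ℝ := (Pi.evalRingHom (fun _ => ℝ) t).comp an.val.toRingHom

lemma ev_mk (F : ℝ → ℝ) (hF : AnalyticOnNhd ℝ F (Icc 0 1)) (t : Icc (0 : ℝ) 1) :
    ev t (mk F hF) = F t := rfl

lemma ev_ex (a : ℝ) (t : Icc (0 : ℝ) 1) : ev t (ex a) = Real.exp (a * t) := rfl

lemma ev_algebraMap (a : ℝ) (t : Icc (0 : ℝ) 1) : ev t (algebraMap ℝ an a) = a := rfl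

lemma eq_zero_of_infinite (x : an) (h : {t : Icc (0 : ℝ) 1 | ev t x = 0}.Infinite) : x = 0 := by
  obtain ⟨f, F, hF, hf⟩ := x
  have h1 : {t ∈ Icc (0 : ℝ) 1 | F t = 0}.Infinite := by
    have h2 : {t ∈ Icc (0 : ℝ) 1 | F t = 0} =
        Subtype.val '' {t : Icc (0 : ℝ) 1 | ev t ⟨f, F, hF, hf⟩ = 0} := by
      ext t
      simp only [mem_image, mem_ofPred_eq, Subtype.exists, exists_and_right,
        exists_eq_right]
      constructor
      · rintro ⟨ht, h3⟩
        exact ⟨ht, (hf ⟨t, ht⟩).trans h3⟩
      · rintro ⟨ht, h3⟩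
        exact ⟨ht, (hf ⟨t, ht⟩).symm.trans h3⟩
    rw [h2]
    exact h.image Subtype.val_injective.injOn
  have h3 := mk_eq_zero_of_infinite hF h1
  rw [← h3]
  ext t
  exact hf t

lemma finrank_map_eq {n m K : ℕ} (M : Matrix (Fin m) (Fin n) ℝ) (V : Submodule ℝ (Fin n → ℝ))
    (b : Module.Basis (Fin K) ℝ V) :
    V.map M.mulVecLin =
      Submodule.span ℝ (range (M * Matrix.of fun i l => (b l : Fin n → ℝ) i).col) := by
  have h1 : V = Submodule.span ℝ (range fun l => (b l : Fin n → ℝ)) := by
    have h2 := congrArg (Submodule.map V.subtype) b.span_eq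
    rw [Submodule.map_span, Submodule.map_top, Submodule.range_subtype, ← range_comp] at h2
    exact h2.symm
  conv_lhs => rw [h1]
  rw [Submodule.map_span, ← range_comp]
  congr 2

/-- Main algebraic lemma. -/
theorem exists_generic {n m K1 J : ℕ} (L : ℝ → Matrix (Fin m) (Fin n) ℝ) (hL : AnFam L)
    (hgood : GoodM L (K1 + J) J) :
    ∃ (U : ℝ → Matrix (Fin (K1 + J)) (Fin m) ℝ) (W : ℝ → Matrix (Fin (K1 + J)) (Fin n) ℝ),
      AnFam U ∧ AnFam W ∧ (∀ t (j : Fin J) i, W t (Fin.natAdd K1 j) i = 0) ∧
      GoodM (fun t => U t * L t + W t) (K1 + J) (K1 + J) := by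
  classical
  set s : Set an := range fun p : Fin m × Fin n => mk (fun t => L t p.1 p.2) (hL p.1 p.2) with hs
  obtain ⟨a, ha⟩ := exists_transcendental s (finite_range _)
  let ι := Fin m ⊕ Fin n
  let d : ι ≃ Fin (m + n) := finSumFinEquiv
  let allowed : Fin (K1 + J) → ι → Prop := fun i c => (∃ x, c = Sum.inl x) ∨ (i : ℕ) < K1
  let e : Fin (K1 + J) → ι → ℕ := fun i c => (d c : ℕ) * (m + n) ^ (i : ℕ)
  let GA : Matrix (Fin (K1 + J)) ι an := Matrix.of fun i c => if allowed i c then ex a ^ e i c else 0
  let G : ℝ → Matrix (Fin (K1 + J)) ι ℝ := fun t =>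
    Matrix.of fun i c => if allowed i c then Real.exp (a * t) ^ e i c else 0
  have hG : ∀ i c, AnalyticOnNhd ℝ (fun t => G t i c) (Icc 0 1) := by
    intro i c
    by_cases h : allowed i c
    · simp only [G, Matrix.of_apply, h, if_true]
      intro t _
      fun_prop
    · simp only [G, Matrix.of_apply, h, if_false]
      exact analyticOnNhd_const
  refine ⟨fun t => Matrix.of fun i x => G t i (Sum.inl x), fun t => Matrix.of fun i x => G t i (Sum.inr x),
    fun i x => hG i _, fun i x => hG i _, ?_, ?_⟩
  · intro t j i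
    simp [G, allowed]
  · intro V hV
    let b := Module.finBasisOfFinrankEq ℝ V hV
    let VM : Matrix (Fin n) (Fin (K1 + J)) ℝ := Matrix.of fun i l => (b l : Fin n → ℝ) i
    -- the big matrix over the ring and its evaluation
    let NA : Matrix ι (Fin (K1 + J)) an := Matrix.of fun c l =>
      Sum.elim (fun x => ∑ i, mk (fun t => L t x i) (hL x i) * algebraMap ℝ an (VM i l))
        (fun i => algebraMap ℝ an (VM i l)) c
    let N : ℝ → Matrix ι (Fin (K1 + J)) ℝ := fun t => Matrix.of fun c l =>
      Sum.elim (fun x => (L t * VM) x l) (fun i => VM i l) c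
    have hNA : ∀ t : Icc (0 : ℝ) 1, ∀ c l, ev t (NA c l) = N t c l := by
      intro t c l
      rcases c with x | i
      · simp [NA, N, Matrix.mul_apply, ev_mk, ev_algebraMap]
      · simp [NA, N, ev_algebraMap]
    have hGA : ∀ t : Icc (0 : ℝ) 1, ∀ i c, ev t (GA i c) = G t i c := by
      intro t i c
      by_cases h : allowed i c
      · simp [GA, G, h, ev_ex]
      · simp [GA, G, h]
    -- the product
    have hprod : ∀ t, ((Matrix.of fun i x => G t i (Sum.inl x)) * L t +
        (Matrix.of fun i x => G t i (Sum.inr x)) : Matrix (Fin (K1 + J)) (Fin n) ℝ) * VM = G t * N t := by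
      intro t
      rw [Matrix.add_mul, Matrix.mul_assoc]
      ext i l
      simp only [Matrix.add_apply, Matrix.mul_apply, ι, Fintype.sum_sum_type, N, Matrix.of_apply,
        Sum.elim_inl, Sum.elim_inr]
    -- reduction to the determinant
    have hdet : ∀ t, (G t * N t).det ≠ 0 →
        ¬ Module.finrank ℝ (V.map ((Matrix.of fun i x => G t i (Sum.inl x)) * L t +
        (Matrix.of fun i x => G t i (Sum.inr x)) : Matrix (Fin (K1 + J)) (Fin n) ℝ).mulVecLin) < K1 + J := by
      intro t ht
      rw [finrank_map_eq _ V b, hprod t]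
      have h1 : LinearIndependent ℝ (G t * N t).col :=
        Matrix.linearIndependent_cols_iff_isUnit.2 ((Matrix.isUnit_iff_isUnit_det _).2 (isUnit_iff_ne_zero.2 ht))
      rw [finrank_span_eq_card h1, Fintype.card_fin]
      exact lt_irrefl _
    by_contra hinf
    have hinf' : {t ∈ Icc (0 : ℝ) 1 | Module.finrank ℝ (V.map ((Matrix.of fun i x => G t i (Sum.inl x)) * L t +
        (Matrix.of fun i x => G t i (Sum.inr x)) : Matrix (Fin (K1 + J)) (Fin n) ℝ).mulVecLin) < K1 + J}.Infinite := hinf
    have hzero : (GA * NA).det = 0 := by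
      apply eq_zero_of_infinite
      have h1 : ({t ∈ Icc (0 : ℝ) 1 | (G t * N t).det = 0}).Infinite := by
        refine hinf'.mono ?_
        rintro t ⟨ht, ht2⟩
        refine ⟨ht, ?_⟩
        by_contra h
        exact hdet t h ht2
      have h2 : (Subtype.val ⁻¹' {t ∈ Icc (0 : ℝ) 1 | (G t * N t).det = 0} : Set (Icc (0 : ℝ) 1)).Infinite := by
        refine Set.Infinite.preimage h1 ?_
        rintro t ⟨ht, -⟩
        exact ⟨⟨t, ht⟩, rfl⟩
      refine h2.mono ?_
      rintro t ⟨-, ht⟩
      show ev t (GA * NA).det = 0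
      rw [RingHom.map_det, RingHom.mapMatrix_apply, Matrix.map_mul]
      have e1 : GA.map (ev t) = G t := by
        ext i c
        exact hGA t i c
      have e2 : NA.map (ev t) = N t := by
        ext i c
        exact hNA t i c
      rw [e1, e2]
      exact ht
    -- the coefficients vanish
    have hcoef : ∀ φ : Fin (K1 + J) → ι, (∀ i, allowed i (φ i)) → (NA.submatrix φ id).det = 0 := by
      have hmem : ∀ c l, NA c l ∈ Algebra.adjoin ℝ s := by
        intro c l
        rcases c with x | i
        · simp only [NA, Matrix.of_apply, Sum.elim_inl]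
          refine Subalgebra.sum_mem _ fun i _ => Subalgebra.mul_mem _ ?_ (Subalgebra.algebraMap_mem _ _)
          exact Algebra.subset_adjoin ⟨(x, i), rfl⟩
        · simp only [NA, Matrix.of_apply, Sum.elim_inr]
          exact Subalgebra.algebraMap_mem _ _
      let NR : Matrix ι (Fin (K1 + J)) (Algebra.adjoin ℝ s) := Matrix.of fun c l => ⟨NA c l, hmem c l⟩
      have hNR : ∀ φ : Fin (K1 + J) → ι, algebraMap (Algebra.adjoin ℝ s) an (NR.submatrix φ id).det =
          (NA.submatrix φ id).det := by
        intro φ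
        exact RingHom.map_det (Algebra.adjoin ℝ s).val.toRingHom (NR.submatrix φ id)
      let E : (Fin (K1 + J) → ι) → ℕ := fun φ => ∑ i, e i (φ i)
      have hE : Function.Injective E := by
        intro φ ψ h
        have h1 : ∀ φ : Fin (K1 + J) → ι, E φ = (finFunctionFinEquiv (d ∘ φ) : ℕ) := by
          intro φ
          rw [finFunctionFinEquiv_apply]
          rfl
        rw [h1, h1] at h
        have h2 := finFunctionFinEquiv.injective (Fin.val_injective h)
        funext i
        exact d.injective (congrFun h2 i)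
      let P : Polynomial (Algebra.adjoin ℝ s) := ∑ φ : Fin (K1 + J) → ι,
        if (∀ i, allowed i (φ i)) then Polynomial.monomial (E φ) ((NR.submatrix φ id).det) else 0
      have hP : Polynomial.aeval (ex a) P = 0 := by
        rw [← hzero, det_mul_expand, map_sum]
        refine Finset.sum_congr rfl fun φ _ => ?_
        by_cases h : ∀ i, allowed i (φ i)
        · rw [if_pos h, Polynomial.aeval_monomial, hNR, mul_comm]
          congr 1
          rw [← Finset.prod_pow_eq_pow_sum]
          refine Finset.prod_congr rfl fun i _ => ?_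
          simp only [GA, Matrix.of_apply, h i, if_true]
        · rw [if_neg h, map_zero]
          push Not at h
          obtain ⟨i, hi⟩ := h
          rw [Finset.prod_eq_zero (Finset.mem_univ i), zero_mul]
          simp only [GA, Matrix.of_apply, hi, if_false]
      have hP0 : P = 0 := (transcendental_iff.1 ha) P hP
      intro φ hφ
      rw [← hNR φ]
      have h3 := congrArg (fun p => Polynomial.coeff p (E φ)) hP0
      simp only [P, Polynomial.finsetSum_coeff, Polynomial.coeff_zero] at h3
      rw [Finset.sum_eq_single φ] at h3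
      · rw [if_pos hφ, Polynomial.coeff_monomial, if_pos rfl] at h3
        rw [h3, map_zero]
      · intro ψ _ hne
        by_cases h : ∀ i, allowed i (ψ i)
        · rw [if_pos h, Polynomial.coeff_monomial, if_neg]
          intro h4
          exact hne (hE h4)
        · rw [if_neg h, Polynomial.coeff_zero]
      · intro h
        exact absurd (Finset.mem_univ _) h
    -- a good parameter
    obtain ⟨t, ht1, ht2⟩ : ∃ t ∈ Icc (0 : ℝ) 1, J ≤ Module.finrank ℝ (V.map (L t).mulVecLin) := by
      by_contra hcon
      push Not at hcon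
      have h1 := hgood V hV
      have h2 : {t ∈ Icc (0 : ℝ) 1 | Module.finrank ℝ (V.map (L t).mulVecLin) < J} = Icc 0 1 := by
        ext t
        exact ⟨fun h => h.1, fun h => ⟨h, hcon t h⟩⟩
      rw [h2] at h1
      exact (Icc_infinite (show (0 : ℝ) < 1 by norm_num)) h1
    rw [finrank_map_eq _ V b, ← Matrix.rank_eq_finrank_span_cols, Matrix.rank_eq_finrank_span_row] at ht2
    obtain ⟨r0, hr0⟩ := exists_rows_of_le (L t * VM).row ht2
    have hspan : Module.finrank ℝ (Submodule.span ℝ (range (N t).row)) = K1 + J := by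
      apply le_antisymm
      · refine (Submodule.finrank_le _).trans ?_
        simp
      · have h1 : Module.finrank ℝ (Submodule.span ℝ (range VM.row)) = K1 + J := by
          rw [← Matrix.rank_eq_finrank_span_row, Matrix.rank_eq_finrank_span_cols]
          have h2 : LinearIndependent ℝ VM.col := by
            have h3 := b.linearIndependent.map' V.subtype (Submodule.ker_subtype V)
            exact h3
          rw [finrank_span_eq_card h2, Fintype.card_fin]
        refine le_trans (le_of_eq h1.symm) ?_
        apply Submodule.finrank_mono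
        apply Submodule.span_mono
        rintro _ ⟨i, rfl⟩
        exact ⟨Sum.inr i, rfl⟩
    obtain ⟨φ, hφ1, hφ2⟩ := exists_rows (N t).row hspan (fun j => Sum.inl (r0 j)) hr0
    have hall : ∀ i, allowed i (φ i) := by
      intro i
      refine Fin.addCases (fun i => ?_) (fun j => ?_) i
      · right
        simp
      · left
        exact ⟨r0 j, hφ1 j⟩
    have h5 := hcoef φ hall
    have h6 : ((N t).submatrix φ id).det = 0 := by
      have h7 := congrArg (ev ⟨t, ht1⟩) h5
      rw [RingHom.map_det, RingHom.mapMatrix_apply, map_zero] at h7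
      rw [← h7]
      congr 1
      ext i l
      exact (hNA ⟨t, ht1⟩ (φ i) l).symm
    have h8 : IsUnit ((N t).submatrix φ id) := Matrix.linearIndependent_rows_iff_isUnit.1 hφ2
    exact ((Matrix.isUnit_iff_isUnit_det _).1 h8).ne_zero h6

end Pool.Agent.H49.RP
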