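import Mathlib

/-!
Selection of rows and expansion of determinants.
-/

open Set Matrix

namespace Pool.Agent.H49.RP

lemma exists_ext {ι V : Type*} [Finite ι] [AddCommGroup V] [Module ℝ V] (v : ι → V) (s : Set ι)
    (hs : LinearIndepOn ℝ v s) :
    ∃ b : Finset ι, s ⊆ b ∧ LinearIndependent ℝ (fun x : b => v x) ∧
      b.card = Module.finrank ℝ (Submodule.span ℝ (range v)) := by
  classical
  obtain ⟨b, -, hsb, hspan, hb⟩ := exists_linearIndepOn_extension hs (subset_univ _)
  obtain ⟨c, rfl⟩ := b.toFinite.exists_finset_coe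
  have hb' : LinearIndependent ℝ (fun x : c => v x) := hb
  refine ⟨c, hsb, hb', ?_⟩
  have h1 : Submodule.span ℝ (range fun x : c => v x) = Submodule.span ℝ (range v) := by
    apply le_antisymm
    · apply Submodule.span_mono
      rintro _ ⟨x, rfl⟩
      exact ⟨x, rfl⟩
    · rw [Submodule.span_le]
      rw [image_univ] at hspan
      refine hspan.trans ?_
      have : (v '' c) = range fun x : c => v x := by
        ext y
        simp
      rw [this]
  have h2 := finrank_span_eq_card hb'
  rw [h1] at h2
  rw [h2]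
  simp

/-- `J` linearly independent rows can be completed to an invertible matrix. -/
lemma exists_rows {ι : Type*} [Finite ι] {K1 J : ℕ} (v : ι → Fin (K1 + J) → ℝ)
    (hrank : Module.finrank ℝ (Submodule.span ℝ (range v)) = K1 + J) (r : Fin J → ι)
    (hr : LinearIndependent ℝ (fun j => v (r j))) :
    ∃ φ : Fin (K1 + J) → ι, (∀ j : Fin J, φ (Fin.natAdd K1 j) = r j) ∧
      LinearIndependent ℝ (fun a => v (φ a)) := by
  classical
  have hrinj : Function.Injective r := by
    intro a b hab
    apply hr.injective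
    simp only [hab]
  have hs : LinearIndepOn ℝ v (range r) := (linearIndepOn_range_iff hrinj v).2 hr
  obtain ⟨b, hsb, hb', hcard⟩ := exists_ext v _ hs
  rw [hrank] at hcard
  -- enumerate the complement
  have hcard2 : (b \ Finset.univ.image r).card = K1 := by
    rw [Finset.card_sdiff_of_subset, hcard, Finset.card_image_of_injective _ hrinj,
      Finset.card_univ, Fintype.card_fin]
    · omega
    · intro x hx
      simp only [Finset.mem_image, Finset.mem_univ, true_and] at hx
      exact hsb hx
  let ψ : Fin K1 ≃ ↥(b \ Finset.univ.image r) := (Finset.equivFinOfCardEq hcard2).symm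
  have hψ1 : ∀ i, (ψ i : ι) ∈ b := fun i => (Finset.mem_sdiff.1 (ψ i).2).1
  have hψ2 : ∀ i j, (ψ i : ι) ≠ r j := by
    intro i j h
    exact (Finset.mem_sdiff.1 (ψ i).2).2 (Finset.mem_image.2 ⟨j, Finset.mem_univ _, h.symm⟩)
  let φ0 : Fin K1 ⊕ Fin J → ι := Sum.elim (fun i => (ψ i : ι)) r
  have hφ0 : Function.Injective φ0 := by
    rintro (i | j) (i' | j') h
    · congr 1
      exact ψ.injective (Subtype.ext h)
    · exact absurd h (hψ2 i j')
    · exact absurd h.symm (hψ2 i' j)
    · congr 1
      exact hrinj h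
  have hφb : ∀ x, φ0 x ∈ b := by
    rintro (i | j)
    · exact hψ1 i
    · exact hsb ⟨j, rfl⟩
  refine ⟨φ0 ∘ finSumFinEquiv.symm, ?_, ?_⟩
  · intro j
    simp [φ0]
  · refine hb'.comp (fun a => ⟨φ0 (finSumFinEquiv.symm a), hφb _⟩) ?_
    intro a a' h
    apply finSumFinEquiv.symm.injective
    apply hφ0
    exact congrArg Subtype.val h

/-- Select `J` linearly independent rows. -/
lemma exists_rows_of_le {ι V : Type*} [Finite ι] [AddCommGroup V] [Module ℝ V] {J : ℕ} (v : ι → V)
    (h : J ≤ Module.finrank ℝ (Submodule.span ℝ (range v))) :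
    ∃ r : Fin J → ι, LinearIndependent ℝ (fun j => v (r j)) := by
  classical
  obtain ⟨b, -, hb', hcard⟩ := exists_ext v ∅ (linearIndepOn_empty ℝ v)
  have hle : Fintype.card (Fin J) ≤ Fintype.card b := by
    rw [Fintype.card_fin, Fintype.card_coe, hcard]
    exact h
  obtain ⟨f⟩ := Function.Embedding.nonempty_of_card_le hle
  exact ⟨fun j => f j, hb'.comp f f.injective⟩

/-- Expansion of the determinant of a product along maps. -/
lemma det_mul_expand {R : Type*} [CommRing R] {ι : Type*} [Fintype ι] [DecidableEq ι] {K : ℕ}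
    (G : Matrix (Fin K) ι R) (N : Matrix ι (Fin K) R) :
    (G * N).det = ∑ φ : Fin K → ι, (∏ a, G a (φ a)) * (N.submatrix φ id).det := by
  have h1 : (G * N) = Matrix.of fun a => ∑ c, G a c • N.row c := by
    ext a l
    simp [Matrix.mul_apply, Matrix.row]
  rw [h1]
  have h2 := MultilinearMap.map_sum (Matrix.detRowAlternating (n := Fin K) (R := R)).toMultilinearMap
    (fun (a : Fin K) (c : ι) => G a c • N.row c)
  refine Eq.trans h2 ?_
  refine Finset.sum_congr rfl fun φ _ => ?_
  have h3 := MultilinearMap.map_smul_univ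
    (Matrix.detRowAlternating (n := Fin K) (R := R)).toMultilinearMap
    (fun a : Fin K => G a (φ a)) (fun a : Fin K => N.row (φ a))
  exact h3

end Pool.Agent.H49.RP
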