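import Pool.Agent.H49.RP.Core

/-!
The statement in Euclidean space, and the comparison with the matrix version.
-/

open Set Matrix MeasureTheory
open scoped ENNReal NNReal

namespace Pool.Agent.H49.RP

/-- Euclidean space. -/
abbrev E (n : ℕ) := EuclideanSpace ℝ (Fin n)

/-- The matrix entries are real-analytic functions on the unit interval. -/
def IsAnalyticFamily {n m : ℕ} (P : ℝ → E n →ₗ[ℝ] E m) : Prop :=
  ∀ i j, AnalyticOnNhd ℝ (fun t => P t (EuclideanSpace.single j 1) i) (Icc 0 1)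

/-- Every subspace of dimension `x` has image of dimension at least `k` for all but finitely many
parameters. -/
def ImageAtLeast {n m : ℕ} (P : ℝ → E n →ₗ[ℝ] E m) (x k : ℕ) : Prop :=
  ∀ V : Submodule ℝ (E n), Module.finrank ℝ V = x →
    {t ∈ Icc (0 : ℝ) 1 | ¬ k ≤ Module.finrank ℝ (V.map (P t))}.Finite

/-- The value of `f` at an integer. -/
noncomputable def intValue {n m : ℕ} (P : ℝ → E n →ₗ[ℝ] E m) (x : ℕ) : ℕ :=
  sSup {k | ImageAtLeast P x k}

/-- The function `f`: linear interpolation of the values at the integers. -/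
noncomputable def f {n m : ℕ} (P : ℝ → E n →ₗ[ℝ] E m) (x : ℝ) : ℝ :=
  (1 - Int.fract x) * intValue P ⌊x⌋₊ + Int.fract x * intValue P (⌊x⌋₊ + 1)

/-- The question in dimension `n`. -/
def Q1 (n : ℕ) : Prop :=
  ∀ m : ℕ, 0 < m → ∀ P : ℝ → E n →ₗ[ℝ] E m, IsAnalyticFamily P → ∀ A : Set (E n), MeasurableSet A →
    ∀ᵐ t ∂(volume.restrict (Icc (0 : ℝ) 1)), ENNReal.ofReal (f P (dimH A).toReal) ≤ dimH (P t '' A)

/-- The critical case in dimension `n`. -/
def Critical (n : ℕ) : Prop :=
  ∀ m : ℕ, 0 < m → ∀ P : ℝ → E n →ₗ[ℝ] E m, IsAnalyticFamily P → ImageAtLeast P m m →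
    ∀ A : Set (E n), MeasurableSet A → (m : ℝ≥0∞) < dimH A + 1 →
      ∀ᵐ t ∂(volume.restrict (Icc (0 : ℝ) 1)), dimH (P t '' A) = min (dimH A) m

/-- The critical case for sets of large dimension. -/
def CriticalLarge (n : ℕ) : Prop :=
  ∀ m : ℕ, 0 < m → ∀ P : ℝ → E n →ₗ[ℝ] E m, IsAnalyticFamily P → ImageAtLeast P m m →
    ∀ A : Set (E n), MeasurableSet A → (m : ℝ≥0∞) ≤ dimH A →
      ∀ᵐ t ∂(volume.restrict (Icc (0 : ℝ) 1)), dimH (P t '' A) = m

variable {n m : ℕ}

lemma dimH_le_finrank (A : Set (E n)) : dimH A ≤ n := by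
  have h1 : dimH A ≤ dimH (univ : Set (E n)) := dimH_mono (subset_univ _)
  rw [Real.dimH_univ_eq_finrank, finrank_euclideanSpace_fin] at h1
  exact h1

lemma dimH_image_le' (L : E n →ₗ[ℝ] E m) (A : Set (E n)) : dimH (L '' A) ≤ dimH A :=
  (LinearMap.toContinuousLinearMap L).lipschitz.dimH_image_le A

lemma exists_sub {M : Type*} [AddCommGroup M] [Module ℝ M] [FiniteDimensional ℝ M]
    (S : Submodule ℝ M) {x : ℕ} (hx : x ≤ Module.finrank ℝ S) :
    ∃ V ≤ S, Module.finrank ℝ V = x := by
  let b := Module.finBasis ℝ S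
  let v : Fin x → M := fun i => (b (Fin.castLE hx i) : M)
  have hv : LinearIndependent ℝ v := by
    have h1 := b.linearIndependent.map' S.subtype (Submodule.ker_subtype S)
    exact h1.comp (Fin.castLE hx) (Fin.castLE_injective hx)
  refine ⟨Submodule.span ℝ (range v), ?_, ?_⟩
  · rw [Submodule.span_le]
    rintro _ ⟨i, rfl⟩
    exact (b (Fin.castLE hx i)).2
  · rw [finrank_span_eq_card hv, Fintype.card_fin]

lemma exists_subspace {x : ℕ} (hx : x ≤ n) : ∃ V : Submodule ℝ (E n), Module.finrank ℝ V = x := by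
  have : x ≤ Module.finrank ℝ (⊤ : Submodule ℝ (E n)) := by
    rw [finrank_top, finrank_euclideanSpace_fin]
    exact hx
  obtain ⟨V, -, hV⟩ := exists_sub ⊤ this
  exact ⟨V, hV⟩

lemma le_of_imageAtLeast {P : ℝ → E n →ₗ[ℝ] E m} {x k : ℕ} (hx : x ≤ n)
    (h : ImageAtLeast P x k) : k ≤ x := by
  obtain ⟨V, hV⟩ := exists_subspace hx
  by_contra hk
  have h1 := h V hV
  have h2 : {t ∈ Icc (0 : ℝ) 1 | ¬ k ≤ Module.finrank ℝ (V.map (P t))} = Icc 0 1 := by
    ext t
    refine ⟨fun h => h.1, fun h => ⟨h, fun h3 => ?_⟩⟩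
    have h4 : Module.finrank ℝ (V.map (P t)) ≤ x := by
      rw [← hV]
      exact Submodule.finrank_map_le _ _
    omega
  rw [h2] at h1
  exact (Icc_infinite (show (0 : ℝ) < 1 by norm_num)) h1

lemma imageAtLeast_zero (P : ℝ → E n →ₗ[ℝ] E m) (x : ℕ) : ImageAtLeast P x 0 := by
  intro V _
  simp

lemma bddAbove_set (P : ℝ → E n →ₗ[ℝ] E m) {x : ℕ} (hx : x ≤ n) :
    BddAbove {k | ImageAtLeast P x k} :=
  ⟨x, fun _ hk => le_of_imageAtLeast hx hk⟩

lemma imageAtLeast_intValue (P : ℝ → E n →ₗ[ℝ] E m) {x : ℕ} (hx : x ≤ n) :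
    ImageAtLeast P x (intValue P x) :=
  Nat.sSup_mem ⟨0, imageAtLeast_zero P x⟩ (bddAbove_set P hx)

lemma le_intValue {P : ℝ → E n →ₗ[ℝ] E m} {x k : ℕ} (hx : x ≤ n) (h : ImageAtLeast P x k) :
    k ≤ intValue P x :=
  le_csSup (bddAbove_set P hx) h

lemma intValue_le (P : ℝ → E n →ₗ[ℝ] E m) {x : ℕ} (hx : x ≤ n) : intValue P x ≤ x :=
  le_of_imageAtLeast hx (imageAtLeast_intValue P hx)

lemma imageAtLeast_succ {P : ℝ → E n →ₗ[ℝ] E m} {x k : ℕ} (h : ImageAtLeast P x k) :
    ImageAtLeast P (x + 1) k := by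
  intro V hV
  obtain ⟨V', hV', hV'x⟩ : ∃ V' ≤ V, Module.finrank ℝ V' = x :=
    exists_sub V (by omega)
  refine (h V' hV'x).subset ?_
  rintro t ⟨ht, ht2⟩
  refine ⟨ht, fun h3 => ht2 (h3.trans ?_)⟩
  exact Submodule.finrank_mono (Submodule.map_mono hV')

lemma imageAtLeast_pred {P : ℝ → E n →ₗ[ℝ] E m} {x k : ℕ} (hx : x + 1 ≤ n)
    (h : ImageAtLeast P (x + 1) (k + 1)) : ImageAtLeast P x k := by
  intro V hV
  obtain ⟨v, hv⟩ : ∃ v : E n, v ∉ V := by
    by_contra hcon
    push Not at hcon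
    have : V = ⊤ := by
      ext y
      simp [hcon y]
    rw [this, finrank_top, finrank_euclideanSpace_fin] at hV
    omega
  have hv' : Module.finrank ℝ (V ⊔ Submodule.span ℝ {v} : Submodule ℝ (E n)) = x + 1 := by
    rw [Submodule.finrank_sup_span_singleton hv, hV]
  refine (h _ hv').subset ?_
  rintro t ⟨ht, ht2⟩
  refine ⟨ht, fun h3 => ht2 ?_⟩
  rw [Submodule.map_sup] at h3
  have h4 := Submodule.finrank_add_le_finrank_add_finrank (V.map (P t)) ((Submodule.span ℝ {v}).map (P t))
  have h5 : Module.finrank ℝ ((Submodule.span ℝ {v}).map (P t)) ≤ 1 := by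
    refine (Submodule.finrank_map_le _ _).trans ?_
    exact (finrank_span_le_card _).trans (by simp)
  omega

/-- The matrix of a linear map between Euclidean spaces. -/
noncomputable def mat (L : E n →ₗ[ℝ] E m) : Matrix (Fin m) (Fin n) ℝ :=
  Matrix.of fun i j => L (EuclideanSpace.single j 1) i

lemma mat_mulVec (L : E n →ₗ[ℝ] E m) (x : E n) :
    mat L *ᵥ (EuclideanSpace.equiv (Fin n) ℝ x) = EuclideanSpace.equiv (Fin m) ℝ (L x) := by
  have hx : x = ∑ j, x j • EuclideanSpace.single j (1 : ℝ) := by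
    ext i
    simp [Finset.sum_apply, Pi.single_apply]
  ext i
  conv_rhs => rw [hx]
  simp [mat, Matrix.mulVec, dotProduct, map_sum, mul_comm]

/-- The linear map of a matrix. -/
noncomputable def toE (M : Matrix (Fin m) (Fin n) ℝ) : E n →ₗ[ℝ] E m :=
  (EuclideanSpace.equiv (Fin m) ℝ).symm.toLinearMap ∘ₗ M.mulVecLin ∘ₗ
    (EuclideanSpace.equiv (Fin n) ℝ).toLinearMap

lemma mat_toE (M : Matrix (Fin m) (Fin n) ℝ) : mat (toE M) = M := by
  ext i j
  have h : EuclideanSpace.equiv (Fin n) ℝ (EuclideanSpace.single j 1) = Pi.single j 1 := by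
    ext l
    simp [Pi.single_apply]
  have h2 : mat (toE M) i j = (M *ᵥ (EuclideanSpace.equiv (Fin n) ℝ (EuclideanSpace.single j 1))) i := rfl
  rw [h2, h]
  simp

lemma toE_mat (L : E n →ₗ[ℝ] E m) : toE (mat L) = L := by
  ext x i
  have h := mat_mulVec L x
  have h2 := congrFun h i
  exact h2

lemma finrank_map_toE (M : Matrix (Fin m) (Fin n) ℝ) (V : Submodule ℝ (E n)) :
    Module.finrank ℝ (V.map (toE M)) =
      Module.finrank ℝ ((V.map (EuclideanSpace.equiv (Fin n) ℝ).toLinearMap).map M.mulVecLin) := by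
  unfold toE
  rw [Submodule.map_comp, Submodule.map_comp]
  exact LinearEquiv.finrank_map_eq (EuclideanSpace.equiv (Fin m) ℝ).symm.toLinearEquiv _

lemma goodM_iff (M : ℝ → Matrix (Fin m) (Fin n) ℝ) (x k : ℕ) :
    GoodM M x k ↔ ImageAtLeast (fun t => toE (M t)) x k := by
  constructor
  · intro h V hV
    have h1 := h (V.map (EuclideanSpace.equiv (Fin n) ℝ).toLinearMap) (by
      rw [← hV]
      exact LinearEquiv.finrank_map_eq (EuclideanSpace.equiv (Fin n) ℝ).toLinearEquiv _)
    refine h1.subset ?_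
    rintro t ⟨ht, ht2⟩
    refine ⟨ht, ?_⟩
    rw [finrank_map_toE] at ht2
    exact not_le.1 ht2
  · intro h V hV
    let V' : Submodule ℝ (E n) := V.map (EuclideanSpace.equiv (Fin n) ℝ).symm.toLinearMap
    have h2 : V'.map (EuclideanSpace.equiv (Fin n) ℝ).toLinearMap = V := by
      rw [← Submodule.map_comp]
      have : ((EuclideanSpace.equiv (Fin n) ℝ).toLinearMap ∘ₗ
        (EuclideanSpace.equiv (Fin n) ℝ).symm.toLinearMap) = LinearMap.id := by
        ext x i
        rfl
      rw [this, Submodule.map_id]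
    have h1 := h V' (by
      rw [← hV]
      exact LinearEquiv.finrank_map_eq (EuclideanSpace.equiv (Fin n) ℝ).symm.toLinearEquiv _)
    refine h1.subset ?_
    rintro t ⟨ht, ht2⟩
    refine ⟨ht, ?_⟩
    rw [finrank_map_toE, h2]
    exact not_le.2 ht2

lemma dimH_toE (M : Matrix (Fin m) (Fin n) ℝ) (A : Set (E n)) :
    dimH (toE M '' A) = dimH ((fun x => M *ᵥ x) '' (EuclideanSpace.equiv (Fin n) ℝ '' A)) := by
  have : toE M '' A = (EuclideanSpace.equiv (Fin m) ℝ).symm ''
      ((fun x => M *ᵥ x) '' (EuclideanSpace.equiv (Fin n) ℝ '' A)) := by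
    rw [image_image, image_image]
    rfl
  rw [this, ContinuousLinearEquiv.dimH_image]

lemma dimH_equiv (A : Set (E n)) : dimH (EuclideanSpace.equiv (Fin n) ℝ '' A) = dimH A :=
  ContinuousLinearEquiv.dimH_image _ _

lemma measurableSet_equiv {A : Set (E n)} (hA : MeasurableSet A) :
    MeasurableSet (EuclideanSpace.equiv (Fin n) ℝ '' A) := by
  have : (EuclideanSpace.equiv (Fin n) ℝ '' A) = (EuclideanSpace.equiv (Fin n) ℝ).symm ⁻¹' A := by
    rw [ContinuousLinearEquiv.image_eq_preimage_symm]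
  rw [this]
  exact (EuclideanSpace.equiv (Fin n) ℝ).symm.continuous.measurable hA

lemma anFam_mat {P : ℝ → E n →ₗ[ℝ] E m} (hP : IsAnalyticFamily P) : AnFam (fun t => mat (P t)) :=
  hP

lemma isAnalyticFamily_toE {M : ℝ → Matrix (Fin m) (Fin n) ℝ} (hM : AnFam M) :
    IsAnalyticFamily (fun t => toE (M t)) := by
  intro i j
  have h := hM i j
  have : (fun t => toE (M t) (EuclideanSpace.single j 1) i) = fun t => M t i j := by
    funext t
    have := congrFun (congrFun (mat_toE (M t)) i) j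
    exact this
  rw [this]
  exact h

lemma critR_of_critical (h : Critical n) : CritR n := by
  intro m hm M hM hgood A hA hdim
  let A' : Set (E n) := (EuclideanSpace.equiv (Fin n) ℝ) ⁻¹' A
  have hA'm : MeasurableSet A' := (EuclideanSpace.equiv (Fin n) ℝ).continuous.measurable hA
  have hA' : EuclideanSpace.equiv (Fin n) ℝ '' A' = A :=
    image_preimage_eq _ (EuclideanSpace.equiv (Fin n) ℝ).surjective
  have hd : dimH A' = dimH A := by rw [← dimH_equiv, hA']
  have h1 := h m hm (fun t => toE (M t)) (isAnalyticFamily_toE hM) ((goodM_iff M m m).1 hgood) A' hA'm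
    (by rw [hd]; exact hdim)
  filter_upwards [h1] with t ht
  rw [dimH_toE, hA', hd] at ht
  exact ht

lemma critM_of_criticalLarge (h : ∀ n, 0 < n → CriticalLarge n) : CritM := by
  intro n m hn hm M hM hgood A hA hdim
  let A' : Set (E n) := (EuclideanSpace.equiv (Fin n) ℝ) ⁻¹' A
  have hA'm : MeasurableSet A' := (EuclideanSpace.equiv (Fin n) ℝ).continuous.measurable hA
  have hA' : EuclideanSpace.equiv (Fin n) ℝ '' A' = A :=
    image_preimage_eq _ (EuclideanSpace.equiv (Fin n) ℝ).surjective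
  have hd : dimH A' = dimH A := by rw [← dimH_equiv, hA']
  have h1 := h n hn m hm (fun t => toE (M t)) (isAnalyticFamily_toE hM) ((goodM_iff M m m).1 hgood) A' hA'm
    (by rw [hd]; exact hdim)
  filter_upwards [h1] with t ht
  rw [dimH_toE, hA'] at ht
  exact ht

lemma intValue_mono (P : ℝ → E n →ₗ[ℝ] E m) {x : ℕ} (hx : x + 1 ≤ n) :
    intValue P x ≤ intValue P (x + 1) :=
  le_intValue hx (imageAtLeast_succ (imageAtLeast_intValue P (by omega)))

lemma intValue_succ_le (P : ℝ → E n →ₗ[ℝ] E m) {x : ℕ} (hx : x + 1 ≤ n) :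
    intValue P (x + 1) ≤ intValue P x + 1 := by
  rcases Nat.eq_zero_or_pos (intValue P (x + 1)) with h0 | h0
  · omega
  · obtain ⟨k, hk⟩ : ∃ k, intValue P (x + 1) = k + 1 := ⟨intValue P (x + 1) - 1, by omega⟩
    have h1 := imageAtLeast_intValue P hx
    rw [hk] at h1
    have h2 := le_intValue (by omega) (imageAtLeast_pred hx h1)
    omega

/-- Numerical form of the conclusion: `f` at `k + θ`. -/
lemma f_eq (P : ℝ → E n →ₗ[ℝ] E m) (k : ℕ) (θ : ℝ) (h0 : 0 ≤ θ) (h1 : θ < 1) :
    f P (k + θ) = (1 - θ) * intValue P k + θ * intValue P (k + 1) := by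
  unfold f
  have e1 : ⌊(k : ℝ) + θ⌋₊ = k := by
    rw [Nat.floor_eq_iff (by positivity)]
    constructor <;> linarith
  have e2 : Int.fract ((k : ℝ) + θ) = θ := by
    rw [Int.fract_natCast_add]
    exact Int.fract_eq_self.2 ⟨h0, h1⟩
  rw [e1, e2]

theorem q1_of_lower {n : ℕ}
    (hlow : ∀ m : ℕ, 0 < m → ∀ P : ℝ → E n →ₗ[ℝ] E m, IsAnalyticFamily P →
      ∀ A : Set (E n), MeasurableSet A → ∀ (k j : ℕ), 0 < j → ImageAtLeast P k j →
        (k : ℝ≥0∞) ≤ dimH A → ∀ᵐ t ∂(volume.restrict (Icc (0 : ℝ) 1)), (j : ℝ≥0∞) ≤ dimH (P t '' A))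
    (hlow2 : ∀ m : ℕ, 0 < m → ∀ P : ℝ → E n →ₗ[ℝ] E m, IsAnalyticFamily P →
      ∀ A : Set (E n), MeasurableSet A → ∀ (k j : ℕ) (θ : ℝ≥0), j ≤ k → k + 1 ≤ n → 0 < θ → θ < 1 →
        ImageAtLeast P k j → ImageAtLeast P (k + 1) (j + 1) → dimH A = (k : ℝ≥0∞) + θ →
          ∀ᵐ t ∂(volume.restrict (Icc (0 : ℝ) 1)), (j : ℝ≥0∞) + θ ≤ dimH (P t '' A)) :
    Q1 n := by
  intro m hm P hP A hA
  have hfin : dimH A ≠ ∞ := ne_top_of_le_ne_top (by simp) (dimH_le_finrank A)
  set x : ℝ := (dimH A).toReal with hx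
  have hx0 : 0 ≤ x := ENNReal.toReal_nonneg
  have hxn : x ≤ n := by
    have := ENNReal.toReal_mono (by simp) (dimH_le_finrank A)
    simpa using this
  set k := ⌊x⌋₊ with hk
  have hkx : (k : ℝ) ≤ x := Nat.floor_le hx0
  have hxk : x < k + 1 := Nat.lt_floor_add_one x
  set θ := x - k with hθ
  have hθ0 : 0 ≤ θ := by linarith
  have hθ1 : θ < 1 := by linarith
  have hdim : dimH A = (k : ℝ≥0∞) + ENNReal.ofReal θ := by
    rw [← ENNReal.ofReal_toReal hfin, ← hx, ← ENNReal.ofReal_natCast, ← ENNReal.ofReal_add (by positivity) hθ0]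
    congr 1
    rw [hθ]
    ring
  have hkn : k ≤ n := by
    have : (k : ℝ) ≤ n := hkx.trans hxn
    exact_mod_cast this
  have hf : f P x = (1 - θ) * intValue P k + θ * intValue P (k + 1) := by
    have := f_eq P k θ hθ0 hθ1
    rwa [hθ, add_sub_cancel] at this
  rw [hf]
  have hgk := imageAtLeast_intValue P hkn
  have hkdim : (k : ℝ≥0∞) ≤ dimH A := by
    rw [hdim]
    exact le_self_add
  -- the integer bound
  have hint : ∀ᵐ t ∂(volume.restrict (Icc (0 : ℝ) 1)), (intValue P k : ℝ≥0∞) ≤ dimH (P t '' A) := by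
    rcases Nat.eq_zero_or_pos (intValue P k) with h0 | h0
    · rw [h0]
      simp
    · exact hlow m hm P hP A hA k _ h0 hgk hkdim
  rcases eq_or_lt_of_le hθ0 with hθz | hθpos
  · rw [← hθz]
    simp only [sub_zero, one_mul, zero_mul, add_zero]
    filter_upwards [hint] with t ht
    rw [ENNReal.ofReal_natCast]
    exact ht
  · have hk1n : k + 1 ≤ n := by
      have : (k : ℝ) < n := by linarith
      have : k < n := by exact_mod_cast this
      omega
    rcases Nat.lt_or_ge (intValue P k) (intValue P (k + 1)) with h1 | h1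
    · have h2 : intValue P (k + 1) = intValue P k + 1 := by
        have := intValue_succ_le P hk1n
        omega
      have hg1 := imageAtLeast_intValue P hk1n
      rw [h2] at hg1
      have h3 := hlow2 m hm P hP A hA k (intValue P k) θ.toNNReal (intValue_le P hkn) hk1n
        (Real.toNNReal_pos.2 hθpos) (by rwa [Real.toNNReal_lt_one]) hgk hg1 hdim
      filter_upwards [h3] with t ht
      refine le_trans (le_of_eq ?_) ht
      rw [h2]
      push_cast
      rw [show (1 - θ) * (intValue P k : ℝ) + θ * ((intValue P k : ℝ) + 1) = intValue P k + θ by ring,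
        ENNReal.ofReal_add (by positivity) hθ0, ENNReal.ofReal_natCast]
      rfl
    · have h2 : intValue P (k + 1) = intValue P k := le_antisymm h1 (intValue_mono P hk1n)
      filter_upwards [hint] with t ht
      rw [h2, show (1 - θ) * (intValue P k : ℝ) + θ * (intValue P k : ℝ) = intValue P k by ring,
        ENNReal.ofReal_natCast]
      exact ht

lemma natCast_lt_dimH_add_one {A : Set (E n)} {k : ℕ} (h : (k : ℝ≥0∞) ≤ dimH A) :
    (k : ℝ≥0∞) < dimH A + 1 := by
  refine lt_of_le_of_lt h ?_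
  exact ENNReal.lt_add_right (ne_top_of_le_ne_top (by simp) (dimH_le_finrank A)) one_ne_zero

theorem q1_of_critical (hC : Critical n) : Q1 n := by
  have hR := critR_of_critical hC
  refine q1_of_lower ?_ ?_
  · intro m hm P hP A hA k j hj hg hk
    have hkn : k ≤ n := by
      have := hk.trans (dimH_le_finrank A)
      exact_mod_cast this
    have hjk := le_of_imageAtLeast hkn hg
    have e : k = (k - j) + j := by omega
    have hg' : GoodM (fun t => mat (P t)) ((k - j) + j) j := by
      rw [← e, goodM_iff]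
      simpa only [toE_mat] using hg
    have h1 := le_dimH_image_real hR hj (fun t => mat (P t)) (anFam_mat hP) hg'
      (EuclideanSpace.equiv (Fin n) ℝ '' A) (measurableSet_equiv hA) (by
        rw [dimH_equiv, ← e]
        exact natCast_lt_dimH_add_one hk)
    filter_upwards [h1] with t ht
    rw [← dimH_toE, toE_mat, dimH_equiv, ← e, min_eq_right hk] at ht
    have h2 : (j : ℝ≥0∞) + ((k - j : ℕ) : ℝ≥0∞) ≤ dimH (P t '' A) + ((k - j : ℕ) : ℝ≥0∞) := by
      refine le_trans (le_of_eq ?_) ht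
      rw [← Nat.cast_add]
      congr 1
      omega
    exact ENNReal.le_of_add_le_add_right (by simp) h2
  · intro m hm P hP A hA k j θ hjk hkn hθ0 hθ1 hg1 hg2 hdim
    have e : k + 1 = (k - j) + (j + 1) := by omega
    have hg' : GoodM (fun t => mat (P t)) ((k - j) + (j + 1)) (j + 1) := by
      rw [← e, goodM_iff]
      simpa only [toE_mat] using hg2
    have hθ0' : (0 : ℝ≥0∞) < θ := by exact_mod_cast hθ0
    have hθ1' : (θ : ℝ≥0∞) ≤ 1 := by exact_mod_cast hθ1.le
    have h1 := le_dimH_image_real hR (Nat.succ_pos j) (fun t => mat (P t)) (anFam_mat hP) hg'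
      (EuclideanSpace.equiv (Fin n) ℝ '' A) (measurableSet_equiv hA) (by
        rw [dimH_equiv, ← e, hdim]
        push_cast
        rw [add_assoc, add_comm (θ : ℝ≥0∞) 1, ← add_assoc]
        exact ENNReal.lt_add_right (by simp) hθ0'.ne')
    filter_upwards [h1] with t ht
    rw [← dimH_toE, toE_mat, dimH_equiv, ← e, min_eq_left (by
      rw [hdim]
      push_cast
      gcongr), hdim] at ht
    have h2 : (j : ℝ≥0∞) + θ + ((k - j : ℕ) : ℝ≥0∞) ≤ dimH (P t '' A) + ((k - j : ℕ) : ℝ≥0∞) := by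
      refine le_trans (le_of_eq ?_) ht
      rw [add_right_comm, ← Nat.cast_add]
      congr 2
      omega
    exact ENNReal.le_of_add_le_add_right (by simp) h2

theorem critical_of_q1 (hQ : Q1 n) : Critical n := by
  intro m hm P hP hg A hA hdim
  have hfin : dimH A ≠ ∞ := ne_top_of_le_ne_top (by simp) (dimH_le_finrank A)
  have hmn : m ≤ n := by
    have h1 : (m : ℝ≥0∞) < n + 1 := lt_of_lt_of_le hdim (by gcongr; exact dimH_le_finrank A)
    have h2 : (m : ℝ≥0∞) < ((n + 1 : ℕ) : ℝ≥0∞) := by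
      push_cast
      exact h1
    have h3 : m < n + 1 := by exact_mod_cast h2
    omega
  have hge : ∀ i, m ≤ i → ImageAtLeast P i m := by
    intro i hi
    induction i, hi using Nat.le_induction with
    | base => exact hg
    | succ i hi ih => exact imageAtLeast_succ ih
  have hpred : m - 1 ≤ intValue P (m - 1) := by
    refine le_intValue (by omega) ?_
    have hg' : ImageAtLeast P ((m - 1) + 1) ((m - 1) + 1) := by
      rw [Nat.sub_add_cancel hm]
      exact hg
    exact imageAtLeast_pred (by omega) hg'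
  set x : ℝ := (dimH A).toReal with hx
  have hx0 : 0 ≤ x := ENNReal.toReal_nonneg
  have hxn : x ≤ n := by
    have := ENNReal.toReal_mono (by simp) (dimH_le_finrank A)
    simpa using this
  have hxA : ENNReal.ofReal x = dimH A := ENNReal.ofReal_toReal hfin
  set k := ⌊x⌋₊ with hk
  have hkx : (k : ℝ) ≤ x := Nat.floor_le hx0
  have hxk : x < k + 1 := Nat.lt_floor_add_one x
  set θ := x - k with hθ
  have hθ0 : 0 ≤ θ := by linarith
  have hθ1 : θ < 1 := by linarith
  have hkn : k ≤ n := by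
    have : (k : ℝ) ≤ n := hkx.trans hxn
    exact_mod_cast this
  have hf : f P x = (1 - θ) * intValue P k + θ * intValue P (k + 1) := by
    have := f_eq P k θ hθ0 hθ1
    rwa [hθ, add_sub_cancel] at this
  have hmx : (m : ℝ) < x + 1 := by
    have h1 : ENNReal.ofReal (m : ℝ) < ENNReal.ofReal (x + 1) := by
      rw [ENNReal.ofReal_natCast, ENNReal.ofReal_add hx0 (by norm_num), hxA, ENNReal.ofReal_one]
      exact hdim
    exact (ENNReal.ofReal_lt_ofReal_iff (by positivity)).1 h1
  have hlow : min (dimH A) (m : ℝ≥0∞) ≤ ENNReal.ofReal (f P x) := by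
    rw [hf]
    rcases Nat.lt_or_ge k m with hkm | hkm
    · -- k = m - 1, θ > 0
      have hk1 : k = m - 1 := by
        have : (m : ℝ) < k + 2 := by linarith
        have : m < k + 2 := by exact_mod_cast this
        omega
      have h1 : (k : ℝ) ≤ intValue P k := by
        rw [hk1]
        exact_mod_cast hpred
      have h2 : (k : ℝ) + 1 ≤ intValue P (k + 1) := by
        have : k + 1 = m := by omega
        have h3 : m ≤ intValue P (k + 1) := by
          rw [this]
          exact le_intValue hmn hg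
        have h4 : k + 1 ≤ intValue P (k + 1) := by omega
        exact_mod_cast h4
      refine le_trans (min_le_left _ _) ?_
      rw [← hxA]
      apply ENNReal.ofReal_le_ofReal
      have h5 : (1 - θ) * (k : ℝ) ≤ (1 - θ) * intValue P k :=
        mul_le_mul_of_nonneg_left h1 (by linarith)
      have h6 : θ * ((k : ℝ) + 1) ≤ θ * intValue P (k + 1) := mul_le_mul_of_nonneg_left h2 hθ0
      have h7 : x = (1 - θ) * (k : ℝ) + θ * ((k : ℝ) + 1) := by
        rw [hθ]
        ring
      linarith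
    · refine le_trans (min_le_right _ _) ?_
      rw [← ENNReal.ofReal_natCast]
      apply ENNReal.ofReal_le_ofReal
      have h1 : (m : ℝ) ≤ intValue P k := by exact_mod_cast le_intValue hkn (hge k hkm)
      rcases eq_or_lt_of_le hθ0 with hθz | hθpos
      · rw [← hθz]
        linarith
      · have hk1n : k + 1 ≤ n := by
          have : (k : ℝ) < n := by linarith
          have : k < n := by exact_mod_cast this
          omega
        have h2 : (m : ℝ) ≤ intValue P (k + 1) := by
          exact_mod_cast le_intValue hk1n (hge (k + 1) (by omega))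
        have h5 : (1 - θ) * (m : ℝ) ≤ (1 - θ) * intValue P k :=
          mul_le_mul_of_nonneg_left h1 (by linarith)
        have h6 : θ * (m : ℝ) ≤ θ * intValue P (k + 1) := mul_le_mul_of_nonneg_left h2 hθ0
        linarith
  filter_upwards [hQ m hm P hP A hA] with t ht
  refine le_antisymm (le_min (dimH_image_le' _ _) (dimH_le_finrank _)) (hlow.trans ht)

theorem q1_of_criticalLarge (hC : ∀ n, 0 < n → CriticalLarge n) (n : ℕ) (hn : 0 < n) : Q1 n := by
  have hM := critM_of_criticalLarge hC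
  refine q1_of_lower ?_ ?_
  · intro m hm P hP A hA k j hj hg hk
    have hkn : k ≤ n := by
      have := hk.trans (dimH_le_finrank A)
      exact_mod_cast this
    have hjk := le_of_imageAtLeast hkn hg
    have e : k = (k - j) + j := by omega
    have hg' : GoodM (fun t => mat (P t)) ((k - j) + j) j := by
      rw [← e, goodM_iff]
      simpa only [toE_mat] using hg
    have h1 := le_dimH_image hM hn (fun t => mat (P t)) (anFam_mat hP) hg'
      (EuclideanSpace.equiv (Fin n) ℝ '' A) (measurableSet_equiv hA) (by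
        rw [dimH_equiv, ← e]
        exact hk)
    filter_upwards [h1] with t ht
    rwa [← dimH_toE, toE_mat] at ht
  · intro m hm P hP A hA k j θ hjk hkn hθ0 hθ1 hg1 hg2 hdim
    have hg1' : GoodM (fun t => mat (P t)) k j := by
      rw [goodM_iff]
      simpa only [toE_mat] using hg1
    have hg2' : GoodM (fun t => mat (P t)) (k + 1) (j + 1) := by
      rw [goodM_iff]
      simpa only [toE_mat] using hg2
    have h1 := le_dimH_image_frac hM hjk (fun t => mat (P t)) (anFam_mat hP) hg1' hg2'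
      (EuclideanSpace.equiv (Fin n) ℝ '' A) (measurableSet_equiv hA) θ hθ0 hθ1 (by
        rw [dimH_equiv]
        exact hdim)
    filter_upwards [h1] with t ht
    rwa [← dimH_toE, toE_mat] at ht

theorem criticalLarge_of_critical (h : Critical n) : CriticalLarge n := by
  intro m hm P hP hg A hA hdim
  filter_upwards [h m hm P hP hg A hA (natCast_lt_dimH_add_one hdim)] with t ht
  rw [ht, min_eq_right hdim]

theorem main : (∀ n : ℕ, 0 < n → (Q1 n ↔ Critical n)) ∧
    ((∀ n : ℕ, 0 < n → Q1 n) ↔ ∀ n : ℕ, 0 < n → CriticalLarge n) :=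
  ⟨fun _ _ => ⟨critical_of_q1, q1_of_critical⟩,
    fun h n hn => criticalLarge_of_critical (critical_of_q1 (h n hn)),
    fun h n hn => q1_of_criticalLarge h n hn⟩

end Pool.Agent.H49.RP
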